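import Pool.Agent.AreaTri.Sat.Comp1

/-!
# Completeness of the SAT layout: order on the lines
-/

namespace Pool.Agent.AreaTri

namespace Sat

set_option linter.unusedSimpArgs false

variable {m : ℕ} {p : ℕ → ℕ → ℕ} {on : ℕ → ℕ} {a b a' b' : ℕ}

/-- The order of the ends of two services in one row, when it follows from the positions alone. -/
def rowT (e e' : RE) : Bool :=
  decide (((100 * (rboy e - rboy e') + 108 * ((64 * (rboy e - rboy e') + rby e - rby e') / 132) +
      rbx e' - rbx e > 0) ∨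
    (100 * (rboy e - rboy e') + 108 * ((64 * (rboy e - rboy e') + rby e - rby e') / 132) +
      rbx e' - rbx e = 0 ∧ (rboy e - rboy e') + rbox e' - rbox e > 0)) →
   ((100 * (rboy e - rboy e') + 108 * ((64 * (rboy e - rboy e') + rby e - rby e') / 132) +
      (2 * dx (rr e') - rbx e') - (2 * dx (rr e) - rbx e) > 0) ∨
    (100 * (rboy e - rboy e') + 108 * ((64 * (rboy e - rboy e') + rby e - rby e') / 132) +
      (2 * dx (rr e') - rbx e') - (2 * dx (rr e) - rbx e) = 0 ∧
      (rboy e - rboy e') + (2 * ox (rr e') - rbox e') - (2 * ox (rr e) - rbox e) ≥ 0)))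

/-- The order of the ends of two services in one column, when it follows from the positions
alone. -/
def colT (e e' : CE) : Bool :=
  decide (((-64 * (cbox e - cbox e') + 132 * ((-100 * (cbox e - cbox e') + cbx e - cbx e') / 108) +
      cby e' - cby e > 0) ∨
    (-64 * (cbox e - cbox e') + 132 * ((-100 * (cbox e - cbox e') + cbx e - cbx e') / 108) +
      cby e' - cby e = 0 ∧ (cbox e - cbox e') + cboy e' - cboy e > 0)) →
   ((-64 * (cbox e - cbox e') + 132 * ((-100 * (cbox e - cbox e') + cbx e - cbx e') / 108) +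
      (2 * dy (cr e') - cby e') - (2 * dy (cr e) - cby e) > 0) ∨
    (-64 * (cbox e - cbox e') + 132 * ((-100 * (cbox e - cbox e') + cbx e - cbx e') / 108) +
      (2 * dy (cr e') - cby e') - (2 * dy (cr e) - cby e) = 0 ∧
      (cbox e - cbox e') + (2 * oy (cr e') - cboy e') - (2 * oy (cr e) - cboy e) ≥ 0)))

lemma row_key (e e' : RE) (hT : rowT e e' = true)
    (h1 : -64 * (a : ℤ) + 132 * b + rby e = -64 * a' + 132 * b' + rby e')
    (h2 : (a : ℤ) + rboy e = a' + rboy e')
    (h3 : 100 * (a : ℤ) + 108 * b + rbx e < 100 * a' + 108 * b' + rbx e' ∨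
      (100 * (a : ℤ) + 108 * b + rbx e = 100 * a' + 108 * b' + rbx e' ∧
        (a : ℤ) + rbox e < a' + rbox e')) :
    100 * (a : ℤ) + 108 * b + (2 * dx (rr e) - rbx e) <
      100 * a' + 108 * b' + (2 * dx (rr e') - rbx e') ∨
    (100 * (a : ℤ) + 108 * b + (2 * dx (rr e) - rbx e) =
      100 * a' + 108 * b' + (2 * dx (rr e') - rbx e') ∧
      (a : ℤ) + (2 * ox (rr e) - rbox e) ≤ a' + (2 * ox (rr e') - rbox e')) := by
  have hu : (a' : ℤ) - a = rboy e - rboy e' := by omega
  have hv : (b' : ℤ) - b = (64 * (rboy e - rboy e') + rby e - rby e') / 132 := by omega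
  have hT' := of_decide_eq_true hT
  rw [← hv, ← hu] at hT'
  clear hT hu hv
  omega

lemma row_order (hG : Good m p on) (e e' : RE) (h : RC m p on e a b) (h' : RC m p on e' a' b')
    (h1 : -64 * (a : ℤ) + 132 * b + rby e = -64 * a' + 132 * b' + rby e')
    (h2 : (a : ℤ) + rboy e = a' + rboy e')
    (h3 : 100 * (a : ℤ) + 108 * b + rbx e < 100 * a' + 108 * b' + rbx e' ∨
      (100 * (a : ℤ) + 108 * b + rbx e = 100 * a' + 108 * b' + rbx e' ∧
        (a : ℤ) + rbox e < a' + rbox e')) :
    100 * (a : ℤ) + 108 * b + (2 * dx (rr e) - rbx e) <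
      100 * a' + 108 * b' + (2 * dx (rr e') - rbx e') ∨
    (100 * (a : ℤ) + 108 * b + (2 * dx (rr e) - rbx e) =
      100 * a' + 108 * b' + (2 * dx (rr e') - rbx e') ∧
      (a : ℤ) + (2 * ox (rr e) - rbox e) ≤ a' + (2 * ox (rr e') - rbox e')) := by
  have hc : a' = a → b' = b → on a' = on a ∧ on b' = on b ∧ p a' b' = p a b := by
    rintro rfl rfl; exact ⟨rfl, rfl, rfl⟩
  have hc' : a' = a + 1 → on a' = on (a + 1) := by
    rintro rfl; rfl
  have hone : b % 3 = 2 → b ≤ 3 * m → on (b - 1) + on b + on (b + 1) = 1 := by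
    intro h4 h5
    have h6 := hG.one (b - 1) (by omega) (by omega)
    rwa [show b - 1 + 1 = b by omega, show b - 1 + 2 = b + 1 by omega] at h6
  have hl : (64 * (rboy e - rboy e') + rby e - rby e') % 132 = 0 := by omega
  have key := fun hT : rowT e e' = true => row_key e e' hT h1 h2 h3
  cases e <;> cases e' <;> first
    | exact absurd hl (by decide)
    | exact key (by decide)
    | (clear hl key
       simp only [RC] at h h'
       simp only [rbx, rby, rbox, rboy, rr, dx, ox] at h1 h2 h3 ⊢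
       omega)

lemma col_key (e e' : CE) (hT : colT e e' = true)
    (h1 : 100 * (a : ℤ) + 108 * b + cbx e = 100 * a' + 108 * b' + cbx e')
    (h2 : (a : ℤ) + cbox e = a' + cbox e')
    (h3 : -64 * (a : ℤ) + 132 * b + cby e < -64 * a' + 132 * b' + cby e' ∨
      (-64 * (a : ℤ) + 132 * b + cby e = -64 * a' + 132 * b' + cby e' ∧
        (a : ℤ) + cboy e < a' + cboy e')) :
    -64 * (a : ℤ) + 132 * b + (2 * dy (cr e) - cby e) <
      -64 * a' + 132 * b' + (2 * dy (cr e') - cby e') ∨
    (-64 * (a : ℤ) + 132 * b + (2 * dy (cr e) - cby e) =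
      -64 * a' + 132 * b' + (2 * dy (cr e') - cby e') ∧
      (a : ℤ) + (2 * oy (cr e) - cboy e) ≤ a' + (2 * oy (cr e') - cboy e')) := by
  have hu : (a' : ℤ) - a = cbox e - cbox e' := by omega
  have hv : (b' : ℤ) - b = (-100 * (cbox e - cbox e') + cbx e - cbx e') / 108 := by omega
  have hT' := of_decide_eq_true hT
  rw [← hv, ← hu] at hT'
  clear hT hu hv
  omega

lemma col_order (e e' : CE) (h : CC m p on e a b) (h' : CC m p on e' a' b')
    (h1 : 100 * (a : ℤ) + 108 * b + cbx e = 100 * a' + 108 * b' + cbx e')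
    (h2 : (a : ℤ) + cbox e = a' + cbox e')
    (h3 : -64 * (a : ℤ) + 132 * b + cby e < -64 * a' + 132 * b' + cby e' ∨
      (-64 * (a : ℤ) + 132 * b + cby e = -64 * a' + 132 * b' + cby e' ∧
        (a : ℤ) + cboy e < a' + cboy e')) :
    -64 * (a : ℤ) + 132 * b + (2 * dy (cr e) - cby e) <
      -64 * a' + 132 * b' + (2 * dy (cr e') - cby e') ∨
    (-64 * (a : ℤ) + 132 * b + (2 * dy (cr e) - cby e) =
      -64 * a' + 132 * b' + (2 * dy (cr e') - cby e') ∧
      (a : ℤ) + (2 * oy (cr e) - cboy e) ≤ a' + (2 * oy (cr e') - cboy e')) := by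
  have hc : a' = a → b' = b → on a' = on a ∧ on b' = on b ∧ p a' b' = p a b := by
    rintro rfl rfl; exact ⟨rfl, rfl, rfl⟩
  have hc' : a' = a → on a' = on a := by
    rintro rfl; rfl
  have hl : (100 * (cbox e - cbox e') + cbx e' - cbx e) % 108 = 0 := by omega
  have key := fun hT : colT e e' = true => col_key e e' hT h1 h2 h3
  cases e <;> cases e' <;> first
    | exact absurd hl (by decide)
    | exact key (by decide)
    | (clear hl key
       simp only [CC] at h h'
       simp only [cbx, cby, cbox, cboy, cr, dy, oy] at h1 h2 h3 ⊢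
       omega)

end Sat

end Pool.Agent.AreaTri
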