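import Pool.Agent.AreaTri.Sat.Comp2
import Pool.Agent.AreaTri.Sat.Comp3

/-!
# Completeness of the SAT layout
-/

namespace Pool.Agent.AreaTri

namespace Sat

open Classical

variable {m : ℕ} {p : ℕ → ℕ → ℕ} {on : ℕ → ℕ} {a b a' b' : ℕ}

/-- The blue node served by a red node. -/
noncomputable def snm (m : ℕ) (p : ℕ → ℕ → ℕ) (on : ℕ → ℕ) (N : Kd × ℕ × ℕ) : Kd × ℕ × ℕ :=
  if h : ∃ e : RE, rr e = N.1 ∧ RC m p on e N.2.1 N.2.2 then
    (rb h.choose, N.2.1 - rsa h.choose, N.2.2 - rsb h.choose)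
  else if h : ∃ e : CE, cr e = N.1 ∧ CC m p on e N.2.1 N.2.2 then
    (cb h.choose, N.2.1 - csa h.choose, N.2.2 - csb h.choose)
  else N

/-- The service function. -/
noncomputable def srvf (m : ℕ) (p : ℕ → ℕ → ℕ) (on : ℕ → ℕ) (q : ℤ × ℤ) : ℤ × ℤ :=
  if h : ∃ N : Kd × ℕ × ℕ, Ex m p N.1 N.2.1 N.2.2 ∧ pos m N = q then
    pos m (snm m p on h.choose)
  else q

lemma snm_spec (hG : Good m p on) {k : Kd} (h : Ex m p k a b) (ht : ty k = .R) :
    (∃ e : RE, rr e = k ∧ RC m p on e a b ∧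
      snm m p on (k, a, b) = (rb e, a - rsa e, b - rsb e)) ∨
    (∃ e : CE, cr e = k ∧ CC m p on e a b ∧
      snm m p on (k, a, b) = (cb e, a - csa e, b - csb e)) := by
  unfold snm
  by_cases h1 : ∃ e : RE, rr e = k ∧ RC m p on e a b
  · left
    refine ⟨h1.choose, h1.choose_spec.1, h1.choose_spec.2, ?_⟩
    rw [dif_pos h1]
  · right
    rcases exists_edge hG h ht with h2 | h2
    · exact absurd h2 h1
    · refine ⟨h2.choose, h2.choose_spec.1, h2.choose_spec.2, ?_⟩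
      rw [dif_neg h1, dif_pos h2]

lemma srvf_pos {k : Kd} (h : Ex m p k a b) :
    srvf m p on (pos m (k, a, b)) = pos m (snm m p on (k, a, b)) := by
  have hex : ∃ N : Kd × ℕ × ℕ, Ex m p N.1 N.2.1 N.2.2 ∧ pos m N = pos m (k, a, b) :=
    ⟨(k, a, b), h, rfl⟩
  unfold srvf
  rw [dif_pos hex]
  congr 2
  have h1 := hex.choose_spec
  generalize hex.choose = N at h1
  obtain ⟨k', a', b'⟩ := N
  obtain ⟨rfl, rfl, rfl⟩ := pos_inj h1.1 h h1.2
  rfl

/-- Data of a row service. -/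
structure RD (m : ℕ) (p : ℕ → ℕ → ℕ) (on : ℕ → ℕ) (r : ℤ × ℤ) (e : RE) (a b : ℕ) : Prop where
  rc : RC m p on e a b
  hr : r = pos m (rr e, a, b)
  hs : srvf m p on r = pos m (rb e, a - rsa e, b - rsb e)

/-- Data of a column service. -/
structure CD (m : ℕ) (p : ℕ → ℕ → ℕ) (on : ℕ → ℕ) (r : ℤ × ℤ) (e : CE) (a b : ℕ) : Prop where
  cc : CC m p on e a b
  hr : r = pos m (cr e, a, b)
  hs : srvf m p on r = pos m (cb e, a - csa e, b - csb e)

lemma edge_of (hG : Good m p on) {r : ℤ × ℤ} (h : r ∈ (lay m p).R) :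
    (∃ e a b, RD m p on r e a b) ∨ (∃ e a b, CD m p on r e a b) := by
  obtain ⟨k, a, b, hE, ht, rfl⟩ := mem_sel.mp h
  rcases snm_spec hG hE ht with ⟨e, rfl, h1, h2⟩ | ⟨e, rfl, h1, h2⟩
  · exact Or.inl ⟨e, a, b, h1, rfl, by rw [srvf_pos hE, h2]⟩
  · exact Or.inr ⟨e, a, b, h1, rfl, by rw [srvf_pos hE, h2]⟩

section Coord

variable {r : ℤ × ℤ}

lemma RD.r1 {e : RE} (h : RD m p on r e a b) :
    r.1 = KK m * (100 * a + 108 * b + dx (rr e)) + (a + ox (rr e)) + bound m := by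
  rw [h.hr]; rfl

lemma RD.r2 {e : RE} (h : RD m p on r e a b) :
    r.2 = KK m * (-64 * a + 132 * b + dy (rr e)) + (a + oy (rr e)) + bound m := by
  rw [h.hr]; rfl

lemma RD.s1 {e : RE} (h : RD m p on r e a b) :
    (srvf m p on r).1 = KK m * (100 * a + 108 * b + rbx e) + (a + rbox e) + bound m := by
  have h1 := rc_ex_blue e h.rc
  have h2 := rb_coord e h1.2.1 h1.2.2
  rw [h.hs]
  unfold pos
  simp only
  rw [h2.1, h2.2.2.1]

lemma RD.s2 {e : RE} (h : RD m p on r e a b) :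
    (srvf m p on r).2 = KK m * (-64 * a + 132 * b + rby e) + (a + rboy e) + bound m := by
  have h1 := rc_ex_blue e h.rc
  have h2 := rb_coord e h1.2.1 h1.2.2
  rw [h.hs]
  unfold pos
  simp only
  rw [h2.2.1, h2.2.2.2]

lemma RD.fine {e : RE} (h : RD m p on r e a b) :
    (0 ≤ (a : ℤ) + ox (rr e) ∧ (a : ℤ) + ox (rr e) ≤ 3 * m + 2) ∧
    (0 ≤ (a : ℤ) + oy (rr e) ∧ (a : ℤ) + oy (rr e) ≤ 3 * m + 2) ∧
    (0 ≤ (a : ℤ) + rbox e ∧ (a : ℤ) + rbox e ≤ 3 * m + 2) ∧
    (0 ≤ (a : ℤ) + rboy e ∧ (a : ℤ) + rboy e ≤ 3 * m + 2) := by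
  have h0 := (rc_ex_red e h.rc).1
  have h1 := rc_ex_blue e h.rc
  have h2 := rb_coord e h1.2.1 h1.2.2
  have h3 := eX_nonneg h1.1
  have h4 := eX_le h1.1
  have h5 := eY_nonneg h1.1
  have h6 := eY_le h1.1
  rw [h2.2.2.1] at h3 h4
  rw [h2.2.2.2] at h5 h6
  exact ⟨⟨eX_nonneg h0, eX_le h0⟩, ⟨eY_nonneg h0, eY_le h0⟩, ⟨h3, h4⟩, ⟨h5, h6⟩⟩

lemma CD.r1 {e : CE} (h : CD m p on r e a b) :
    r.1 = KK m * (100 * a + 108 * b + dx (cr e)) + (a + ox (cr e)) + bound m := by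
  rw [h.hr]; rfl

lemma CD.r2 {e : CE} (h : CD m p on r e a b) :
    r.2 = KK m * (-64 * a + 132 * b + dy (cr e)) + (a + oy (cr e)) + bound m := by
  rw [h.hr]; rfl

lemma CD.s1 {e : CE} (h : CD m p on r e a b) :
    (srvf m p on r).1 = KK m * (100 * a + 108 * b + cbx e) + (a + cbox e) + bound m := by
  have h1 := cc_ex_blue e h.cc
  have h2 := cb_coord e h1.2.1 h1.2.2
  rw [h.hs]
  unfold pos
  simp only
  rw [h2.1, h2.2.2.1]

lemma CD.s2 {e : CE} (h : CD m p on r e a b) :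
    (srvf m p on r).2 = KK m * (-64 * a + 132 * b + cby e) + (a + cboy e) + bound m := by
  have h1 := cc_ex_blue e h.cc
  have h2 := cb_coord e h1.2.1 h1.2.2
  rw [h.hs]
  unfold pos
  simp only
  rw [h2.2.1, h2.2.2.2]

lemma CD.fine {e : CE} (h : CD m p on r e a b) :
    (0 ≤ (a : ℤ) + ox (cr e) ∧ (a : ℤ) + ox (cr e) ≤ 3 * m + 2) ∧
    (0 ≤ (a : ℤ) + oy (cr e) ∧ (a : ℤ) + oy (cr e) ≤ 3 * m + 2) ∧
    (0 ≤ (a : ℤ) + cbox e ∧ (a : ℤ) + cbox e ≤ 3 * m + 2) ∧
    (0 ≤ (a : ℤ) + cboy e ∧ (a : ℤ) + cboy e ≤ 3 * m + 2) := by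
  have h0 := (cc_ex_red e h.cc).1
  have h1 := cc_ex_blue e h.cc
  have h2 := cb_coord e h1.2.1 h1.2.2
  have h3 := eX_nonneg h1.1
  have h4 := eX_le h1.1
  have h5 := eY_nonneg h1.1
  have h6 := eY_le h1.1
  rw [h2.2.2.1] at h3 h4
  rw [h2.2.2.2] at h5 h6
  exact ⟨⟨eX_nonneg h0, eX_le h0⟩, ⟨eY_nonneg h0, eY_le h0⟩, ⟨h3, h4⟩, ⟨h5, h6⟩⟩

lemma KK_eq (m : ℕ) : KK m = 4 * (3 * m + 4) := rfl

lemma RD.isRow {e : RE} (h : RD m p on r e a b) : (lay m p).IsRow (srvf m p on) r := by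
  have hr := re_row e
  refine ⟨?_, ?_⟩
  · rw [h.s2, h.r2, hr.1, hr.2.1]
  · have h1 := rc_ex_blue e h.rc
    rcases hr.2.2.1 with h2 | ⟨h2, h3⟩
    · left
      rw [h.hs]; exact pos_mem_sel h1.1 h2
    · right
      refine ⟨by rw [h.hs]; exact pos_mem_sel h1.1 h2, ?_⟩
      have h4 := h.fine
      rw [h.s1, h.r1]
      have h5 := (lex_lt_iff (K := KK m) (X := 100 * a + 108 * b + rbx e)
        (Y := 100 * a + 108 * b + dx (rr e)) (KK_pos m) h4.2.2.1.1 h4.1.1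
        (by rw [KK_eq]; linarith [h4.2.2.1.2]) (by rw [KK_eq]; linarith [h4.1.2])).mpr
        (Or.inl (by linarith))
      linarith

lemma CD.isCol {e : CE} (h : CD m p on r e a b) : (lay m p).IsCol (srvf m p on) r := by
  have hr := ce_col e
  refine ⟨?_, ?_⟩
  · rw [h.s1, h.r1, hr.1, hr.2.1]
  · have h1 := cc_ex_blue e h.cc
    rw [h.hs]
    exact hr.2.2.1.imp (pos_mem_sel h1.1) (pos_mem_sel h1.1)

lemma RD.not_isCol {e : RE} (h : RD m p on r e a b) : ¬ (lay m p).IsCol (srvf m p on) r := by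
  rintro ⟨h1, -⟩
  have h4 := h.fine
  rw [h.s1, h.r1] at h1
  have h5 := (lex_eq_iff (K := KK m) (X := 100 * a + 108 * b + rbx e)
    (Y := 100 * a + 108 * b + dx (rr e)) (KK_pos m) h4.2.2.1.1 h4.1.1
    (by rw [KK_eq]; linarith [h4.2.2.1.2]) (by rw [KK_eq]; linarith [h4.1.2])).mp (by linarith)
  exact (re_row e).2.2.2 ⟨by linarith [h5.1], by linarith [h5.2]⟩

lemma CD.not_isRow {e : CE} (h : CD m p on r e a b) : ¬ (lay m p).IsRow (srvf m p on) r := by
  rintro ⟨h1, -⟩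
  have h4 := h.fine
  rw [h.s2, h.r2] at h1
  have h5 := (lex_eq_iff (K := KK m) (X := -64 * a + 132 * b + cby e)
    (Y := -64 * a + 132 * b + dy (cr e)) (KK_pos m) h4.2.2.2.1 h4.2.1.1
    (by rw [KK_eq]; linarith [h4.2.2.2.2]) (by rw [KK_eq]; linarith [h4.2.1.2])).mp (by linarith)
  exact (ce_col e).2.2.2 ⟨by linarith [h5.1], by linarith [h5.2]⟩

end Coord

/-- Coarse version of the lower end of an occupied interval. -/
lemma coarse_min {K M x1 x2 y e1 e2 e' B : ℤ} (hK : 0 < K) (hB : 3 * B < K)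
    (h1 : 0 ≤ e1 ∧ e1 ≤ B) (h2 : 0 ≤ e2 ∧ e2 ≤ B) (h3 : 0 ≤ e' ∧ e' ≤ B)
    (h : min (K * x1 + e1 + M) (2 * (K * x2 + e2 + M) - (K * x1 + e1 + M)) ≤ K * y + e' + M) :
    min x1 (2 * x2 - x1) ≤ y := by
  rcases min_le_iff.mp h with h4 | h4
  · refine (min_le_left _ _).trans (lex_le hK (e := e1) (e' := e') (by linarith) (by linarith))
  · refine (min_le_right _ _).trans (lex_le hK (e := 2 * e2 - e1) (e' := e') (by linarith)
      (by linarith))

/-- Coarse version of the upper end of an occupied interval. -/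
lemma coarse_max {K M x1 x2 y e1 e2 e' B : ℤ} (hK : 0 < K) (hB : 3 * B < K)
    (h1 : 0 ≤ e1 ∧ e1 ≤ B) (h2 : 0 ≤ e2 ∧ e2 ≤ B) (h3 : 0 ≤ e' ∧ e' ≤ B)
    (h : K * y + e' + M ≤ max (K * x1 + e1 + M) (2 * (K * x2 + e2 + M) - (K * x1 + e1 + M))) :
    y ≤ max x1 (2 * x2 - x1) := by
  rcases le_max_iff.mp h with h4 | h4
  · refine (lex_le hK (e := e') (e' := e1) (by linarith) (by linarith)).trans (le_max_left _ _)
  · refine (lex_le hK (e := e') (e' := 2 * e2 - e1) (by linarith)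
      (by linarith)).trans (le_max_right _ _)

lemma no_cross (hG : Good m p on) {r r' : ℤ × ℤ} {e : RE} {e' : CE} (h : RD m p on r e a b)
    (h' : CD m p on r' e' a' b') :
    ¬ (min (srvf m p on r).1 (2 * r.1 - (srvf m p on r).1) ≤ (srvf m p on r').1 ∧
       (srvf m p on r').1 ≤ max (srvf m p on r).1 (2 * r.1 - (srvf m p on r).1) ∧
       min (srvf m p on r').2 (2 * r'.2 - (srvf m p on r').2) ≤ (srvf m p on r).2 ∧
       (srvf m p on r).2 ≤ max (srvf m p on r').2 (2 * r'.2 - (srvf m p on r').2)) := by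
  rintro ⟨c1, c2, c3, c4⟩
  have hf := h.fine
  have hf' := h'.fine
  rw [h.s1, h.r1, h'.s1] at c1 c2
  rw [h.s2, h'.r2, h'.s2] at c3 c4
  have hB : 3 * (3 * (m : ℤ) + 2) < KK m := by rw [KK_eq]; linarith
  have d1 := coarse_min (KK_pos m) hB hf.2.2.1 hf.1 hf'.2.2.1 c1
  have d2 := coarse_max (KK_pos m) hB hf.2.2.1 hf.1 hf'.2.2.1 c2
  have d3 := coarse_min (KK_pos m) hB hf'.2.2.2 hf'.2.1 hf.2.2.2 c3
  have d4 := coarse_max (KK_pos m) hB hf'.2.2.2 hf'.2.1 hf.2.2.2 c4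
  have hre := re_row e
  have hce := ce_col e'
  rw [hce.1] at d1 d2
  rw [hre.1] at d3 d4
  -- differences
  obtain ⟨u, hu⟩ : ∃ u : ℤ, (a' : ℤ) = a + u := ⟨a' - a, by ring⟩
  obtain ⟨v, hv⟩ : ∃ v : ℤ, (b' : ℤ) = b + v := ⟨b' - b, by ring⟩
  have e1 : min (rbx e) (2 * dx (rr e) - rbx e) ≤ 100 * u + 108 * v + dx (cr e') := by
    rcases min_le_iff.mp d1 with h5 | h5
    · refine (min_le_left _ _).trans ?_
      rw [hu, hv] at h5; linarith
    · refine (min_le_right _ _).trans ?_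
      rw [hu, hv] at h5; linarith
  have e2 : 100 * u + 108 * v + dx (cr e') ≤ max (rbx e) (2 * dx (rr e) - rbx e) := by
    rcases le_max_iff.mp d2 with h5 | h5
    · refine le_trans ?_ (le_max_left _ _)
      rw [hu, hv] at h5; linarith
    · refine le_trans ?_ (le_max_right _ _)
      rw [hu, hv] at h5; linarith
  have e3 : min (cby e') (2 * dy (cr e') - cby e') ≤ 64 * u - 132 * v + dy (rr e) := by
    rcases min_le_iff.mp d3 with h5 | h5
    · refine (min_le_left _ _).trans ?_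
      rw [hu, hv] at h5; linarith
    · refine (min_le_right _ _).trans ?_
      rw [hu, hv] at h5; linarith
  have e4 : 64 * u - 132 * v + dy (rr e) ≤ max (cby e') (2 * dy (cr e') - cby e') := by
    rcases le_max_iff.mp d4 with h5 | h5
    · refine le_trans ?_ (le_max_left _ _)
      rw [hu, hv] at h5; linarith
    · refine le_trans ?_ (le_max_right _ _)
      rw [hu, hv] at h5; linarith
  have hcb : crossB e e' u v = true := by
    unfold crossB
    simp only [e1, e2, e3, e4, decide_true, Bool.and_self]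
  have hbd := re_bd e
  have hbd' := ce_bd e'
  have hu1 : -4 ≤ u ∧ u ≤ 4 := by constructor <;> omega
  have hv1 : -3 ≤ v ∧ v ≤ 3 := by constructor <;> omega
  have key := cross_table e e' ⟨(u + 4).toNat, by omega⟩ ⟨(v + 3).toNat, by omega⟩
  simp only [Int.toNat_of_nonneg (show 0 ≤ u + 4 by omega),
    Int.toNat_of_nonneg (show 0 ≤ v + 3 by omega), add_sub_cancel_right] at key
  rcases key hcb with ⟨h5, h6, h7⟩ | h5
  · -- same red node
    have ha : a' = a := by omega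
    have hb : b' = b := by omega
    subst ha hb
    have hrr : r' = r := by rw [h.hr, h'.hr, h5]
    rw [hrr] at h'
    exact h.not_isCol h'.isCol
  · exact tab_false hG _ h5 a b a' b' h.rc h'.cc hu hv

theorem matching (hG : Good m p on) : (lay m p).Matching (srvf m p on) where
  inj := by
    intro r hr r' hr' hh
    have hinv : ∀ r ∈ (lay m p).R, ∃ N : Kd × ℕ × ℕ, Ex m p N.1 N.2.1 N.2.2 ∧
        srvf m p on r = pos m N ∧ r = pos m (ginv on N) := by
      intro r hr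
      rcases edge_of hG hr with ⟨e, a, b, h⟩ | ⟨e, a, b, h⟩
      · exact ⟨_, (rc_ex_blue e h.rc).1, h.hs, by rw [ginv_rb hG e h.rc]; exact h.hr⟩
      · exact ⟨_, (cc_ex_blue e h.cc).1, h.hs, by rw [ginv_cb hG e h.cc]; exact h.hr⟩
    obtain ⟨⟨k, a, b⟩, h1, h2, h3⟩ := hinv r hr
    obtain ⟨⟨k', a', b'⟩, h1', h2', h3'⟩ := hinv r' hr'
    rw [h2, h2'] at hh
    obtain ⟨rfl, rfl, rfl⟩ := pos_inj h1 h1' hh
    rw [h3, h3']
  kind := by
    intro r hr
    rcases edge_of hG hr with ⟨e, a, b, h⟩ | ⟨e, a, b, h⟩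
    · exact Or.inl h.isRow
    · exact Or.inr h.isCol
  noncross := by
    intro r hr r' hr' h1 h2
    rcases edge_of hG hr with ⟨e, a, b, h⟩ | ⟨e, a, b, h⟩
    · rcases edge_of hG hr' with ⟨e', a', b', h'⟩ | ⟨e', a', b', h'⟩
      · exact absurd h2 h'.not_isCol
      · exact no_cross hG h h'
    · exact absurd h1 h.not_isRow
  rowOrder := by
    intro r hr r' hr' h1 h2 h3 h4
    rcases edge_of hG hr with ⟨e, a, b, h⟩ | ⟨e, a, b, h⟩
    swap
    · exact absurd h1 h.not_isRow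
    rcases edge_of hG hr' with ⟨e', a', b', h'⟩ | ⟨e', a', b', h'⟩
    swap
    · exact absurd h2 h'.not_isRow
    have hf := h.fine
    have hf' := h'.fine
    have hKK := KK_eq m
    rw [h.s2, h'.s2] at h3
    rw [h.s1, h'.s1] at h4
    have h5 := (lex_eq_iff (K := KK m) (X := -64 * (a : ℤ) + 132 * b + rby e)
      (Y := -64 * (a' : ℤ) + 132 * b' + rby e') (KK_pos m) hf.2.2.2.1 hf'.2.2.2.1
      (by rw [KK_eq]; linarith [hf.2.2.2.2]) (by rw [KK_eq]; linarith [hf'.2.2.2.2])).mp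
      (by linarith [h3])
    have h6 := (lex_lt_iff (K := KK m) (X := 100 * (a : ℤ) + 108 * b + rbx e)
      (Y := 100 * (a' : ℤ) + 108 * b' + rbx e') (KK_pos m) hf.2.2.1.1 hf'.2.2.1.1
      (by rw [KK_eq]; linarith [hf.2.2.1.2]) (by rw [KK_eq]; linarith [hf'.2.2.1.2])).mp
      (by linarith [h4])
    have key := row_order hG e e' h.rc h'.rc h5.1 h5.2 h6
    rw [h.s1, h'.s1, h.r1, h'.r1]
    rcases key with h7 | ⟨h7, h8⟩
    · have h9 := lex_of_lt (K := KK m) (e := (a : ℤ) + (2 * ox (rr e) - rbox e))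
        (e' := (a' : ℤ) + (2 * ox (rr e') - rbox e')) (KK_pos m) h7
        (by rw [KK_eq]; linarith [hf.2.2.1.1, hf.1.2, hf'.2.2.1.2, hf'.1.1])
      linarith
    · have h9 : KK m * (100 * (a : ℤ) + 108 * b + (2 * dx (rr e) - rbx e)) =
          KK m * (100 * a' + 108 * b' + (2 * dx (rr e') - rbx e')) := by rw [h7]
      linarith
  colOrder := by
    intro r hr r' hr' h1 h2 h3 h4
    rcases edge_of hG hr with ⟨e, a, b, h⟩ | ⟨e, a, b, h⟩
    · exact absurd h1 h.not_isCol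
    rcases edge_of hG hr' with ⟨e', a', b', h'⟩ | ⟨e', a', b', h'⟩
    · exact absurd h2 h'.not_isCol
    have hf := h.fine
    have hf' := h'.fine
    rw [h.s1, h'.s1] at h3
    rw [h.s2, h'.s2] at h4
    have h5 := (lex_eq_iff (K := KK m) (X := 100 * (a : ℤ) + 108 * b + cbx e)
      (Y := 100 * (a' : ℤ) + 108 * b' + cbx e') (KK_pos m) hf.2.2.1.1 hf'.2.2.1.1
      (by rw [KK_eq]; linarith [hf.2.2.1.2]) (by rw [KK_eq]; linarith [hf'.2.2.1.2])).mp
      (by linarith [h3])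
    have h6 := (lex_lt_iff (K := KK m) (X := -64 * (a : ℤ) + 132 * b + cby e)
      (Y := -64 * (a' : ℤ) + 132 * b' + cby e') (KK_pos m) hf.2.2.2.1 hf'.2.2.2.1
      (by rw [KK_eq]; linarith [hf.2.2.2.2]) (by rw [KK_eq]; linarith [hf'.2.2.2.2])).mp
      (by linarith [h4])
    have key := col_order e e' h.cc h'.cc h5.1 h5.2 h6
    rw [h.s2, h'.s2, h.r2, h'.r2]
    rcases key with h7 | ⟨h7, h8⟩
    · have h9 := lex_of_lt (K := KK m) (e := (a : ℤ) + (2 * oy (cr e) - cboy e))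
        (e' := (a' : ℤ) + (2 * oy (cr e') - cboy e')) (KK_pos m) h7
        (by rw [KK_eq]; linarith [hf.2.2.2.1, hf.2.1.2, hf'.2.2.2.2, hf'.2.1.1])
      linarith
    · have h9 : KK m * (-64 * (a : ℤ) + 132 * b + (2 * dy (cr e) - cby e)) =
          KK m * (-64 * a' + 132 * b' + (2 * dy (cr e') - cby e')) := by rw [h7]
      linarith

end Sat

theorem satLayout_complete {m : ℕ} {plain : ℕ → ℕ → Bool} (pick : ℕ → ℕ)
    (h : (∀ j < m, pick j < 3) ∧
      ∀ i j, i < j → j < m → plain (3 * i + pick i + 1) (3 * j + pick j + 1) = false) :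
    ∃ srv, (satLayout m plain).Matching srv := by
  let on : ℕ → ℕ := fun b => if (b - 1) / 3 < m ∧ b = 3 * ((b - 1) / 3) + pick ((b - 1) / 3) + 1
    then 1 else 0
  have hG : Sat.Good m (fun a b => (plain a b).toNat) on := by
    refine ⟨?_, ?_, ?_, ?_⟩
    · intro a b
      cases plain a b <;> simp
    · intro b
      by_cases hb : (b - 1) / 3 < m ∧ b = 3 * ((b - 1) / 3) + pick ((b - 1) / 3) + 1
      · right; exact if_pos hb
      · left; exact if_neg hb
    · intro b hb hbm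
      obtain ⟨j, rfl⟩ : ∃ j, b = 3 * j + 1 := ⟨b / 3, by omega⟩
      have hj : j < m := by omega
      have hp := h.1 j hj
      have e0 : (3 * j + 1 - 1) / 3 = j := by omega
      have e1 : (3 * j + 1 + 1 - 1) / 3 = j := by omega
      have e2 : (3 * j + 1 + 2 - 1) / 3 = j := by omega
      have c0 : on (3 * j + 1) = if pick j = 0 then 1 else 0 := by
        simp only [on, e0]
        split_ifs <;> first | rfl | (exfalso; omega)
      have c1 : on (3 * j + 1 + 1) = if pick j = 1 then 1 else 0 := by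
        simp only [on, e1]
        split_ifs <;> first | rfl | (exfalso; omega)
      have c2 : on (3 * j + 1 + 2) = if pick j = 2 then 1 else 0 := by
        simp only [on, e2]
        split_ifs <;> first | rfl | (exfalso; omega)
      rw [c0, c1, c2]
      split_ifs <;> omega
    · intro a b ha hab hb hona honb
      have h1 : (a - 1) / 3 < m ∧ a = 3 * ((a - 1) / 3) + pick ((a - 1) / 3) + 1 := by
        by_contra hcon
        have : on a = 0 := if_neg hcon
        omega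
      have h2 : (b - 1) / 3 < m ∧ b = 3 * ((b - 1) / 3) + pick ((b - 1) / 3) + 1 := by
        by_contra hcon
        have : on b = 0 := if_neg hcon
        omega
      have h3 : (a - 1) / 3 < (b - 1) / 3 := by
        rcases Nat.lt_or_ge ((a - 1) / 3) ((b - 1) / 3) with h4 | h4
        · exact h4
        · exfalso
          have h5 : (a - 1) / 3 = (b - 1) / 3 := by omega
          rw [← h5] at h2
          omega
      have h4 := h.2 _ _ h3 h2.1
      rw [← h1.2, ← h2.2] at h4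
      simp only [h4, Bool.toNat_false]
  exact ⟨_, Sat.matching hG⟩

end Pool.Agent.AreaTri
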