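import Pool.Agent.AreaTri.Sat.Pos

/-!
# The SAT layout as four explicit lists
-/

namespace Pool.Agent.AreaTri

/-- Position at the cell `(a, b)` with coarse offset `(d.1, d.2.1)`, fine offset `(d.2.2.1, d.2.2.2)`. -/
def place (m a b : ℕ) (d : ℤ × ℤ × ℤ × ℤ) : ℤ × ℤ :=
  (4 * (3 * (m : ℤ) + 4) * (100 * (a : ℤ) + 108 * (b : ℤ) + d.1) + ((a : ℤ) + d.2.2.1) +
      1600 * (3 * (m : ℤ) + 4) ^ 2,
    4 * (3 * (m : ℤ) + 4) * (-64 * (a : ℤ) + 132 * (b : ℤ) + d.2.1) + ((a : ℤ) + d.2.2.2) +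
      1600 * (3 * (m : ℤ) + 4) ^ 2)

/-- Red nodes at the cell `(a, b)`; `pl` says whether `a, b` must not both be selected. -/
def cellR (m a b : ℕ) (pl : Bool) : List (ℤ × ℤ × ℤ × ℤ) :=
  (if 1 ≤ a ∧ a ≤ b ∧ b ≤ 3 * m then [(0, 56, -1, 0), (116, 120, 0, 0)] else []) ++
    (if 1 ≤ a ∧ a < b ∧ b ≤ 3 * m then [(100, 56, 0, 0), (116, 44, 0, 0)] else []) ++
    (if 1 ≤ a ∧ a < b ∧ b ≤ 3 * m ∧ pl = false then [(140, 56, 0, 0), (140, 0, 0, 0)] else []) ++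
    (if 1 ≤ a ∧ a ≤ 3 * m ∧ a < b ∧ b ≤ 3 * m + 1 then [(8, 44, 0, 0)] else []) ++
    (if 1 ≤ a ∧ a = b ∧ b ≤ 3 * m then [(116, 56, 0, 0)] else []) ++
    (if a = 1 ∧ b % 3 = 1 ∧ b ≤ 3 * m then [(0, 188, -1, 0), (108, 320, -1, 0)] else []) ++
    (if a % 3 = 1 ∧ a ≤ 3 * m ∧ b = 3 * m + 1 then
      [(128, 44, 0, 0), (128, -20, 0, 1), (208, 12, 2, 0)] else [])

/-- Blue nodes served along their row at the cell `(a, b)`. -/
def cellH (m a b : ℕ) (pl : Bool) : List (ℤ × ℤ × ℤ × ℤ) :=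
  (if 1 ≤ a ∧ a < b ∧ b ≤ 3 * m then [(88, 56, 0, 0)] else []) ++
    (if 1 ≤ a ∧ a < b ∧ b ≤ 3 * m ∧ pl = false then [(136, 56, 0, 0), (96, 44, 0, 0)] else []) ++
    (if 1 ≤ a ∧ a < b ∧ b ≤ 3 * m ∧ pl = true then [(104, 44, 0, 0)] else []) ++
    (if 1 ≤ a ∧ a = b ∧ b ≤ 3 * m then [(60, 56, 0, 0)] else []) ++
    (if a = 1 ∧ b % 3 = 1 ∧ b ≤ 3 * m then [(54, 188, 0, 0), (162, 320, 0, 0)] else []) ++
    (if a % 3 = 1 ∧ a ≤ 3 * m ∧ b = 3 * m + 1 then [(68, 44, 0, 0), (118, -20, 0, 1)] else [])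

/-- Blue nodes served along their column at the cell `(a, b)`. -/
def cellV (m a b : ℕ) (pl : Bool) : List (ℤ × ℤ × ℤ × ℤ) :=
  (if 1 ≤ a ∧ a ≤ b ∧ b ≤ 3 * m then [(116, 76, 0, 0), (116, 172, 0, 0)] else []) ++
    (if 1 ≤ a ∧ a < b ∧ b ≤ 3 * m ∧ pl = false then [(140, 4, 0, 0)] else []) ++
    (if 1 ≤ a ∧ a < b ∧ b ≤ 3 * m ∧ pl = true then [(100, 0, 0, 0)] else []) ++
    (if a = 1 ∧ b % 3 = 1 ∧ b ≤ 3 * m then [(0, 64, -1, 0), (108, 196, -1, 0)] else []) ++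
    (if a % 3 = 1 ∧ a ≤ 3 * m ∧ b = 3 * m + 1 then [(208, -36, 2, 0)] else [])

/-- The remaining blue nodes at the cell `(a, b)`. -/
def cellT (m a b : ℕ) (pl : Bool) : List (ℤ × ℤ × ℤ × ℤ) :=
  (if 1 ≤ a ∧ a < b ∧ b ≤ 3 * m ∧ pl = false then [(100, 0, 0, 0)] else []) ++
    (if a % 3 = 1 ∧ a ≤ 3 * m ∧ b = 3 * m + 1 then [(128, 12, 0, 0)] else [])

/-- The nodes of all cells. -/
def cells (cell : ℕ → ℕ → ℕ → Bool → List (ℤ × ℤ × ℤ × ℤ)) (m : ℕ) (plain : ℕ → ℕ → Bool) :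
    List (ℤ × ℤ) :=
  (List.range (3 * m + 2)).flatMap fun a => (List.range (3 * m + 2)).flatMap fun b =>
    (cell m a b (plain a b)).map (place m a b)

/-- Red nodes of the SAT layout. -/
def satR (m : ℕ) (plain : ℕ → ℕ → Bool) : List (ℤ × ℤ) := cells cellR m plain

/-- `H` nodes of the SAT layout. -/
def satH (m : ℕ) (plain : ℕ → ℕ → Bool) : List (ℤ × ℤ) := cells cellH m plain

/-- `V` nodes of the SAT layout. -/
def satV (m : ℕ) (plain : ℕ → ℕ → Bool) : List (ℤ × ℤ) := cells cellV m plain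

/-- `T` nodes of the SAT layout. -/
def satT (m : ℕ) (plain : ℕ → ℕ → Bool) : List (ℤ × ℤ) := cells cellT m plain

open Pool.Agent.AreaTri.Sat

lemma place_eq (m : ℕ) (k : Kd) (a b : ℕ) :
    place m a b (dx k, dy k, ox k, oy k) = pos m (k, a, b) := rfl

/-- The list `cell` lists the nodes of type `t`. -/
def CellOf (cell : ℕ → ℕ → ℕ → Bool → List (ℤ × ℤ × ℤ × ℤ)) (t : Ty) : Prop :=
  ∀ (m : ℕ) (plain : ℕ → ℕ → Bool) (a b : ℕ) (d : ℤ × ℤ × ℤ × ℤ),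
    d ∈ cell m a b (plain a b) ↔ ∃ k, ty k = t ∧ Ex m (fun a b => (plain a b).toNat) k a b ∧
      (dx k, dy k, ox k, oy k) = d

lemma cells_toFinset {cell : ℕ → ℕ → ℕ → Bool → List (ℤ × ℤ × ℤ × ℤ)} {t : Ty}
    (h : CellOf cell t) (m : ℕ) (plain : ℕ → ℕ → Bool) :
    sel m (fun a b => (plain a b).toNat) t = (cells cell m plain).toFinset := by
  ext q
  rw [mem_sel, List.mem_toFinset]
  unfold cells
  simp only [List.mem_flatMap, List.mem_range, List.mem_map]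
  constructor
  · rintro ⟨k, a, b, h1, h2, rfl⟩
    have h3 := Ex_bd h1
    exact ⟨a, by omega, b, by omega, _, (h m plain a b _).mpr ⟨k, h2, h1, rfl⟩, rfl⟩
  · rintro ⟨a, -, b, -, d, h1, rfl⟩
    obtain ⟨k, h2, h3, rfl⟩ := (h m plain a b d).mp h1
    exact ⟨k, a, b, h3, h2, rfl⟩

lemma cellOf_R : CellOf cellR .R := by
  intro m plain a b d
  unfold cellR
  simp only [List.mem_append, List.mem_ite_nil_right, List.mem_cons, List.not_mem_nil, or_false]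
  constructor
  · rintro ((((((⟨h, rfl | rfl⟩ | ⟨h, rfl | rfl⟩) | ⟨h, rfl | rfl⟩) | ⟨h, rfl⟩) | ⟨h, rfl⟩) |
      ⟨h, rfl | rfl⟩) | ⟨h, rfl | rfl | rfl⟩)
    · exact ⟨.r1, rfl, h, rfl⟩
    · exact ⟨.m1, rfl, h, rfl⟩
    · exact ⟨.x, rfl, h, rfl⟩
    · exact ⟨.rh, rfl, h, rfl⟩
    · exact ⟨.ya, rfl, ⟨h.1, h.2.1, h.2.2.1, by simp [h.2.2.2]⟩, rfl⟩
    · exact ⟨.y, rfl, ⟨h.1, h.2.1, h.2.2.1, by simp [h.2.2.2]⟩, rfl⟩
    · exact ⟨.g2, rfl, h, rfl⟩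
    · exact ⟨.rd, rfl, h, rfl⟩
    · exact ⟨.qa, rfl, h, rfl⟩
    · exact ⟨.qc, rfl, h, rfl⟩
    · exact ⟨.N, rfl, h, rfl⟩
    · exact ⟨.S, rfl, h, rfl⟩
    · exact ⟨.Er, rfl, h, rfl⟩
  · rintro ⟨k, h1, h2, rfl⟩
    cases k <;> simp only [ty, reduceCtorEq] at h1 <;>
      simp only [Ex, Bool.toNat_eq_zero] at h2 <;>
      first | (simp [dx, dy, ox, oy, h2]; done) | (simp [dx, dy, ox, oy, h2]; omega)

lemma cellOf_H : CellOf cellH .H := by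
  intro m plain a b d
  unfold cellH
  simp only [List.mem_append, List.mem_ite_nil_right, List.mem_cons, List.not_mem_nil, or_false]
  constructor
  · rintro (((((⟨h, rfl⟩ | ⟨h, rfl | rfl⟩) | ⟨h, rfl⟩) | ⟨h, rfl⟩) | ⟨h, rfl | rfl⟩) |
      ⟨h, rfl | rfl⟩)
    · exact ⟨.b0, rfl, h, rfl⟩
    · exact ⟨.pa, rfl, ⟨h.1, h.2.1, h.2.2.1, by simp [h.2.2.2]⟩, rfl⟩
    · exact ⟨.bg, rfl, ⟨h.1, h.2.1, h.2.2.1, by simp [h.2.2.2]⟩, rfl⟩
    · exact ⟨.bp, rfl, ⟨h.1, h.2.1, h.2.2.1, by simp [h.2.2.2]⟩, rfl⟩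
    · exact ⟨.bd, rfl, h, rfl⟩
    · exact ⟨.Db, rfl, h, rfl⟩
    · exact ⟨.Dd, rfl, h, rfl⟩
    · exact ⟨.k1, rfl, h, rfl⟩
    · exact ⟨.k2, rfl, h, rfl⟩
  · rintro ⟨k, h1, h2, rfl⟩
    cases k <;> simp only [ty, reduceCtorEq] at h1 <;>
      simp only [Ex, Bool.toNat_eq_zero, Bool.toNat_eq_one] at h2 <;>
      first | (simp [dx, dy, ox, oy, h2]; done) | (simp [dx, dy, ox, oy, h2]; omega)

lemma cellOf_V : CellOf cellV .V := by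
  intro m plain a b d
  unfold cellV
  simp only [List.mem_append, List.mem_ite_nil_right, List.mem_cons, List.not_mem_nil, or_false]
  constructor
  · rintro ((((⟨h, rfl | rfl⟩ | ⟨h, rfl⟩) | ⟨h, rfl⟩) | ⟨h, rfl | rfl⟩) | ⟨h, rfl⟩)
    · exact ⟨.bh2, rfl, h, rfl⟩
    · exact ⟨.d1, rfl, h, rfl⟩
    · exact ⟨.pb, rfl, ⟨h.1, h.2.1, h.2.2.1, by simp [h.2.2.2]⟩, rfl⟩
    · exact ⟨.P, rfl, ⟨h.1, h.2.1, h.2.2.1, by simp [h.2.2.2]⟩, rfl⟩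
    · exact ⟨.Da, rfl, h, rfl⟩
    · exact ⟨.Dc, rfl, h, rfl⟩
    · exact ⟨.dE, rfl, h, rfl⟩
  · rintro ⟨k, h1, h2, rfl⟩
    cases k <;> simp only [ty, reduceCtorEq] at h1 <;>
      simp only [Ex, Bool.toNat_eq_zero, Bool.toNat_eq_one] at h2 <;>
      simp [dx, dy, ox, oy, h2]

lemma cellOf_T : CellOf cellT .T := by
  intro m plain a b d
  unfold cellT
  simp only [List.mem_append, List.mem_ite_nil_right, List.mem_cons, List.not_mem_nil, or_false]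
  constructor
  · rintro (⟨h, rfl⟩ | ⟨h, rfl⟩)
    · exact ⟨.T, rfl, ⟨h.1, h.2.1, h.2.2.1, by simp [h.2.2.2]⟩, rfl⟩
    · exact ⟨.Ts, rfl, h, rfl⟩
  · rintro ⟨k, h1, h2, rfl⟩
    cases k <;> simp only [ty, reduceCtorEq] at h1 <;>
      simp only [Ex, Bool.toNat_eq_zero] at h2 <;>
      simp [dx, dy, ox, oy, h2]

/-- The layout is given by four lists. -/
theorem satLayout_eq (m : ℕ) (plain : ℕ → ℕ → Bool) : satLayout m plain =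
    ⟨(satR m plain).toFinset, (satH m plain).toFinset, (satV m plain).toFinset,
      (satT m plain).toFinset⟩ := by
  unfold satLayout lay satR satH satV satT
  rw [cells_toFinset cellOf_R, cells_toFinset cellOf_H, cells_toFinset cellOf_V,
    cells_toFinset cellOf_T]

/-- The size parameter. -/
theorem satBound_eq (m : ℕ) : satBound m = 1600 * (3 * (m : ℤ) + 4) ^ 2 := rfl

end Pool.Agent.AreaTri
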