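import Pool.Agent.AreaTri.Sat.Sound4

/-!
# Soundness of the SAT layout
-/

namespace Pool.Agent.AreaTri

namespace Sat

set_option linter.unusedSimpArgs false

variable {m : ℕ} {p : ℕ → ℕ → ℕ} {k k' : Kd} {a b a' b' : ℕ} {srv : ℤ × ℤ → ℤ × ℤ}

/-- In every clause some wire is on. -/
lemma exists_on (hp : ∀ a b, p a b = 0 ∨ p a b = 1) (hs : (lay m p).Service srv) {j : ℕ}
    (hj : j < m) : ∃ i < 3, On m p srv 1 (3 * j + i + 1) := by
  by_contra hcon
  push Not at hcon
  have hall : ∀ i < 3, ∀ N ∈ later p 1 (3 * j + i + 1), RowH m p srv N := by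
    intro i hi
    exact not_not.mp (hcon i hi)
  have h0 := hall 0 (by norm_num)
  have h1 := hall 1 (by norm_num)
  have h2 := hall 2 (by norm_num)
  obtain ⟨b, hb⟩ : ∃ b, b = 3 * j + 1 := ⟨_, rfl⟩
  have e0 : 3 * j + 0 + 1 = b := by omega
  have e1 : 3 * j + 1 + 1 = b + 1 := by omega
  have e2 : 3 * j + 2 + 1 = b + 2 := by omega
  rw [e0] at h0
  rw [e1] at h1
  rw [e2] at h2
  have hr0 : Ex m p .r1 1 b := by simp only [Ex]; omega
  have hr1 : Ex m p .r1 1 (b + 1) := by simp only [Ex]; omega
  have hr2 : Ex m p .r1 1 (b + 2) := by simp only [Ex]; omega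
  have hqa : Ex m p .qa 1 b := ⟨rfl, by omega, by omega⟩
  have hqc : Ex m p .qc 1 b := ⟨rfl, by omega, by omega⟩
  -- first wire
  have hn0 : ¬ RowH m p srv (.r1, 1, b) := fun h => on_of_rowH hp hs hr0 (Or.inr (by omega)) h h0
  have hc0 : ColV m p srv (.r1, 1, b) := by
    rcases srv_r1 hs hr0 with h | ⟨k', a', b', h', hq, hc⟩
    · exact absurd h hn0
    · rcases hc with ⟨h3, h4, h5⟩ | ⟨h3, h4, rfl, rfl, rfl⟩ | ⟨h3, h4, h5⟩
      · have := Ex_bd h'; omega
      · exact colV_of h' rfl hq
      · omega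
  have hqar : RowH m p srv (.qa, 1, b) := by
    rcases srv_rowcol hs (Or.inr (Or.inr (Or.inl rfl))) hqa with h | h
    · exact h
    exfalso
    have key := cap_col hs (100 + 108 * b) 0 [(.r1, 1, b), (.qa, 1, b)] [(.Da, 1, b)] (by simp)
      (by
        intro N hN
        simp only [List.mem_cons, List.not_mem_nil, or_false] at hN
        rcases hN with rfl | rfl
        · exact ⟨hr0, rfl, by simp only [cX, dx]; push_cast; ring, by simp [eX, ox], hc0⟩
        · exact ⟨hqa, rfl, by simp only [cX, dx]; push_cast; ring, by simp [eX, ox], h⟩)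
      (fun k'' a'' b'' h1 ht h2 h3 => colV_Da (by omega) h1 ht h2 h3)
      ⟨le_rfl, KK_pos m⟩
    simp at key
  -- second wire
  have hn1 : ¬ RowH m p srv (.r1, 1, b + 1) := by
    intro h
    have hls := later_spec hp hr1
    have key := cap_row hs (-64 * (1 : ℕ) + 132 * (b + 1 : ℕ) + 56) (1 : ℕ)
      ((.qa, 1, b) :: (.r1, 1, b + 1) :: later p 1 (b + 1)) ((.Db, 1, b) :: laterH p 1 (b + 1))
      (by
        rw [List.nodup_cons, List.nodup_cons]
        refine ⟨?_, fun hm => (hls _ hm).2.2.2.2.1 rfl, later_nodup⟩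
        intro hm
        rcases List.mem_cons.mp hm with hm | hm
        · simp at hm
        · exact (hls _ hm).2.2.2.2.2.1 rfl)
      (by
        intro N hN
        rcases List.mem_cons.mp hN with rfl | hN
        · exact ⟨hqa, rfl, by simp only [cY, dy]; push_cast; ring, by simp [eY, oy], hqar⟩
        rcases List.mem_cons.mp hN with rfl | hN
        · exact ⟨hr1, rfl, by simp only [cY, dy], by simp [eY, oy], h⟩
        · have := hls N hN
          exact ⟨this.1, this.2.1, this.2.2.1, this.2.2.2.1, h1 N hN⟩)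
      (by
        intro k' a' b' h3 ht h4 h5
        rw [List.mem_cons]
        rcases rowH_B (a := 1) (b := b + 1) hp h3 ht h4 h5 with h6 | ⟨-, -, h6⟩ | ⟨-, h7, -⟩
        · exact Or.inr h6
        · exact Or.inl h6
        · omega)
      (ey_bd (by omega))
    simp only [List.length_cons] at key
    rw [later_length] at key
    omega
  have hc1 : ColV m p srv (.r1, 1, b + 1) := by
    rcases srv_r1 hs hr1 with h | ⟨k', a', b', h', hq, hc⟩
    · exact absurd h hn1
    · rcases hc with ⟨h3, h4, h5⟩ | ⟨h3, h4, h5⟩ | ⟨h3, h4, rfl, h5, h6⟩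
      · have := Ex_bd h'; omega
      · omega
      · exact colV_of h' rfl hq
  have hqcr : RowH m p srv (.qc, 1, b) := by
    rcases srv_rowcol hs (Or.inr (Or.inr (Or.inr rfl))) hqc with h | h
    · exact h
    exfalso
    have key := cap_col hs (100 + 108 * (b + 1)) 0 [(.r1, 1, b + 1), (.qc, 1, b)] [(.Dc, 1, b)]
      (by simp)
      (by
        intro N hN
        simp only [List.mem_cons, List.not_mem_nil, or_false] at hN
        rcases hN with rfl | rfl
        · exact ⟨hr1, rfl, by simp only [cX, dx]; push_cast; ring, by simp [eX, ox], hc1⟩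
        · exact ⟨hqc, rfl, by simp only [cX, dx]; push_cast; ring, by simp [eX, ox], h⟩)
      (fun k'' a'' b'' h1 ht h2 h3 => colV_Dc (by omega) h1 ht h2 h3)
      ⟨le_rfl, KK_pos m⟩
    simp at key
  -- third wire
  have hn2 : ¬ RowH m p srv (.r1, 1, b + 2) := by
    intro h
    have hls := later_spec hp hr2
    have key := cap_row hs (-64 * (1 : ℕ) + 132 * (b + 2 : ℕ) + 56) (1 : ℕ)
      ((.qc, 1, b) :: (.r1, 1, b + 2) :: later p 1 (b + 2)) ((.Dd, 1, b) :: laterH p 1 (b + 2))
      (by
        rw [List.nodup_cons, List.nodup_cons]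
        refine ⟨?_, fun hm => (hls _ hm).2.2.2.2.1 rfl, later_nodup⟩
        intro hm
        rcases List.mem_cons.mp hm with hm | hm
        · simp at hm
        · exact (hls _ hm).2.2.2.2.2.2 rfl)
      (by
        intro N hN
        rcases List.mem_cons.mp hN with rfl | hN
        · exact ⟨hqc, rfl, by simp only [cY, dy]; push_cast; ring, by simp [eY, oy], hqcr⟩
        rcases List.mem_cons.mp hN with rfl | hN
        · exact ⟨hr2, rfl, by simp only [cY, dy], by simp [eY, oy], h⟩
        · have := hls N hN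
          exact ⟨this.1, this.2.1, this.2.2.1, this.2.2.2.1, h2 N hN⟩)
      (by
        intro k' a' b' h3 ht h4 h5
        rw [List.mem_cons]
        rcases rowH_B (a := 1) (b := b + 2) hp h3 ht h4 h5 with h6 | ⟨-, h7, -⟩ | ⟨-, -, h6⟩
        · exact Or.inr h6
        · omega
        · exact Or.inl h6)
      (ey_bd (by omega))
    simp only [List.length_cons] at key
    rw [later_length] at key
    omega
  rcases srv_r1 hs hr2 with h | ⟨k', a', b', h', hq, hc⟩
  · exact hn2 h
  · rcases hc with ⟨h3, h4, h5⟩ | ⟨h3, h4, h5⟩ | ⟨h3, h4, h5⟩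
    · have := Ex_bd h'; omega
    · omega
    · omega

end Sat

theorem satLayout_sound {m : ℕ} {plain : ℕ → ℕ → Bool} {srv : ℤ × ℤ → ℤ × ℤ}
    (h : (satLayout m plain).Service srv) :
    ∃ pick : ℕ → ℕ, (∀ j < m, pick j < 3) ∧
      ∀ i j, i < j → j < m → plain (3 * i + pick i + 1) (3 * j + pick j + 1) = false := by
  classical
  have hp : ∀ a b, (plain a b).toNat = 0 ∨ (plain a b).toNat = 1 := by
    intro a b; cases plain a b <;> simp
  have hex : ∀ j, ∃ i, j < m → i < 3 ∧
      Sat.On m (fun a b => (plain a b).toNat) srv 1 (3 * j + i + 1) := by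
    intro j
    by_cases hj : j < m
    · obtain ⟨i, hi, h1⟩ := Sat.exists_on hp h hj
      exact ⟨i, fun _ => ⟨hi, h1⟩⟩
    · exact ⟨0, fun h => absurd h hj⟩
  choose pick hpick using hex
  refine ⟨pick, fun j hj => (hpick j hj).1, fun i j hij hj => ?_⟩
  obtain ⟨h1, h2⟩ := hpick i (by omega)
  obtain ⟨h3, h4⟩ := hpick j hj
  have := Sat.not_plain hp h (a := 3 * i + pick i + 1) (b := 3 * j + pick j + 1) (by omega)
    (by omega) (by omega) h2 h4
  cases hpl : plain (3 * i + pick i + 1) (3 * j + pick j + 1)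
  · rfl
  · rw [hpl] at this; simp at this

end Pool.Agent.AreaTri
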