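import Pool.Agent.AreaTri.Sat.Pos

/-!
# Completeness of the SAT layout: the service edges

`on b = 1` if wire `b` is on. Each red node serves one blue node; the possible services along rows
are `RE`, along columns `CE`; `RC e a b` resp. `CC e a b` says that the red node of kind `rr e`
(`cr e`) with parameters `a, b` uses the service `e`.
-/

namespace Pool.Agent.AreaTri

namespace Sat

/-- Services along rows. -/
inductive RE
  | r1b0 | r1bd | r1Db | r1Dd | xb0 | xpa | yapa | yT | rdbd | g2bp | g2bg | g2k1 | g2k2 | rhbp | rhbg | qaDb | qcDd | Nk1 | Sk2 | ErTs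
  deriving DecidableEq

instance : Fintype RE :=
  ⟨⟨([.r1b0, .r1bd, .r1Db, .r1Dd, .xb0, .xpa, .yapa, .yT, .rdbd, .g2bp, .g2bg, .g2k1, .g2k2, .rhbp, .rhbg, .qaDb, .qcDd, .Nk1, .Sk2, .ErTs] : List RE), by decide⟩, by intro k; cases k <;> decide⟩

/-- Services along columns. -/
inductive CE
  | r1T | r1P | r1Da | r1Dc | xP | xT | yapb | ypb | rdbh | g2dE | g2d1 | rhbh | m1d1 | m1bh | qaDa | qcDc | NTs | STs | ErdE
  deriving DecidableEq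

instance : Fintype CE :=
  ⟨⟨([.r1T, .r1P, .r1Da, .r1Dc, .xP, .xT, .yapb, .ypb, .rdbh, .g2dE, .g2d1, .rhbh, .m1d1, .m1bh, .qaDa, .qcDc, .NTs, .STs, .ErdE] : List CE), by decide⟩, by intro k; cases k <;> decide⟩

/-- The red node. -/
def rr : RE → Kd
  | .r1b0 => .r1
  | .r1bd => .r1
  | .r1Db => .r1
  | .r1Dd => .r1
  | .xb0 => .x
  | .xpa => .x
  | .yapa => .ya
  | .yT => .y
  | .rdbd => .rd
  | .g2bp => .g2
  | .g2bg => .g2
  | .g2k1 => .g2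
  | .g2k2 => .g2
  | .rhbp => .rh
  | .rhbg => .rh
  | .qaDb => .qa
  | .qcDd => .qc
  | .Nk1 => .N
  | .Sk2 => .S
  | .ErTs => .Er

/-- The blue node. -/
def rb : RE → Kd
  | .r1b0 => .b0
  | .r1bd => .bd
  | .r1Db => .Db
  | .r1Dd => .Dd
  | .xb0 => .b0
  | .xpa => .pa
  | .yapa => .pa
  | .yT => .T
  | .rdbd => .bd
  | .g2bp => .bp
  | .g2bg => .bg
  | .g2k1 => .k1
  | .g2k2 => .k2
  | .rhbp => .bp
  | .rhbg => .bg
  | .qaDb => .Db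
  | .qcDd => .Dd
  | .Nk1 => .k1
  | .Sk2 => .k2
  | .ErTs => .Ts

/-- Shift of the first parameter. -/
def rsa : RE → ℕ
  | .r1b0 => 0
  | .r1bd => 0
  | .r1Db => 0
  | .r1Dd => 0
  | .xb0 => 0
  | .xpa => 0
  | .yapa => 0
  | .yT => 0
  | .rdbd => 0
  | .g2bp => 0
  | .g2bg => 0
  | .g2k1 => 0
  | .g2k2 => 1
  | .rhbp => 0
  | .rhbg => 0
  | .qaDb => 0
  | .qcDd => 0
  | .Nk1 => 0
  | .Sk2 => 0
  | .ErTs => 0

/-- Shift of the second parameter. -/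
def rsb : RE → ℕ
  | .r1b0 => 0
  | .r1bd => 0
  | .r1Db => 1
  | .r1Dd => 2
  | .xb0 => 0
  | .xpa => 0
  | .yapa => 0
  | .yT => 0
  | .rdbd => 0
  | .g2bp => 0
  | .g2bg => 0
  | .g2k1 => 0
  | .g2k2 => 0
  | .rhbp => 0
  | .rhbg => 0
  | .qaDb => 0
  | .qcDd => 0
  | .Nk1 => 0
  | .Sk2 => 0
  | .ErTs => 0

/-- The red node. -/
def cr : CE → Kd
  | .r1T => .r1
  | .r1P => .r1
  | .r1Da => .r1
  | .r1Dc => .r1
  | .xP => .x
  | .xT => .x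
  | .yapb => .ya
  | .ypb => .y
  | .rdbh => .rd
  | .g2dE => .g2
  | .g2d1 => .g2
  | .rhbh => .rh
  | .m1d1 => .m1
  | .m1bh => .m1
  | .qaDa => .qa
  | .qcDc => .qc
  | .NTs => .N
  | .STs => .S
  | .ErdE => .Er

/-- The blue node. -/
def cb : CE → Kd
  | .r1T => .T
  | .r1P => .P
  | .r1Da => .Da
  | .r1Dc => .Dc
  | .xP => .P
  | .xT => .T
  | .yapb => .pb
  | .ypb => .pb
  | .rdbh => .bh2
  | .g2dE => .dE
  | .g2d1 => .d1
  | .rhbh => .bh2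
  | .m1d1 => .d1
  | .m1bh => .bh2
  | .qaDa => .Da
  | .qcDc => .Dc
  | .NTs => .Ts
  | .STs => .Ts
  | .ErdE => .dE

/-- Shift of the first parameter. -/
def csa : CE → ℕ
  | .r1T => 1
  | .r1P => 1
  | .r1Da => 0
  | .r1Dc => 0
  | .xP => 0
  | .xT => 0
  | .yapb => 0
  | .ypb => 0
  | .rdbh => 0
  | .g2dE => 2
  | .g2d1 => 0
  | .rhbh => 0
  | .m1d1 => 0
  | .m1bh => 0
  | .qaDa => 0
  | .qcDc => 0
  | .NTs => 0
  | .STs => 0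
  | .ErdE => 0

/-- Shift of the second parameter. -/
def csb : CE → ℕ
  | .r1T => 0
  | .r1P => 0
  | .r1Da => 0
  | .r1Dc => 1
  | .xP => 0
  | .xT => 0
  | .yapb => 0
  | .ypb => 0
  | .rdbh => 0
  | .g2dE => 0
  | .g2d1 => 1
  | .rhbh => 0
  | .m1d1 => 0
  | .m1bh => 0
  | .qaDa => 0
  | .qcDc => 0
  | .NTs => 0
  | .STs => 0
  | .ErdE => 0

/-- Coarse abscissa of the blue node. -/
def rbx : RE → ℤ
  | .r1b0 => 88
  | .r1bd => 60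
  | .r1Db => -54
  | .r1Dd => -54
  | .xb0 => 88
  | .xpa => 136
  | .yapa => 136
  | .yT => 100
  | .rdbd => 60
  | .g2bp => 104
  | .g2bg => 96
  | .g2k1 => 68
  | .g2k2 => 18
  | .rhbp => 104
  | .rhbg => 96
  | .qaDb => 54
  | .qcDd => 162
  | .Nk1 => 68
  | .Sk2 => 118
  | .ErTs => 128

/-- Coarse ordinate of the blue node. -/
def rby : RE → ℤ
  | .r1b0 => 56
  | .r1bd => 56
  | .r1Db => 56
  | .r1Dd => 56
  | .xb0 => 56
  | .xpa => 56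
  | .yapa => 56
  | .yT => 0
  | .rdbd => 56
  | .g2bp => 44
  | .g2bg => 44
  | .g2k1 => 44
  | .g2k2 => 44
  | .rhbp => 44
  | .rhbg => 44
  | .qaDb => 188
  | .qcDd => 320
  | .Nk1 => 44
  | .Sk2 => -20
  | .ErTs => 12

/-- Fine abscissa of the blue node. -/
def rbox : RE → ℤ
  | .r1b0 => 0
  | .r1bd => 0
  | .r1Db => 0
  | .r1Dd => 0
  | .xb0 => 0
  | .xpa => 0
  | .yapa => 0
  | .yT => 0
  | .rdbd => 0
  | .g2bp => 0
  | .g2bg => 0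
  | .g2k1 => 0
  | .g2k2 => -1
  | .rhbp => 0
  | .rhbg => 0
  | .qaDb => 0
  | .qcDd => 0
  | .Nk1 => 0
  | .Sk2 => 0
  | .ErTs => 0

/-- Fine ordinate of the blue node. -/
def rboy : RE → ℤ
  | .r1b0 => 0
  | .r1bd => 0
  | .r1Db => 0
  | .r1Dd => 0
  | .xb0 => 0
  | .xpa => 0
  | .yapa => 0
  | .yT => 0
  | .rdbd => 0
  | .g2bp => 0
  | .g2bg => 0
  | .g2k1 => 0
  | .g2k2 => 0
  | .rhbp => 0
  | .rhbg => 0
  | .qaDb => 0
  | .qcDd => 0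
  | .Nk1 => 0
  | .Sk2 => 1
  | .ErTs => 0

/-- Coarse abscissa of the blue node. -/
def cbx : CE → ℤ
  | .r1T => 0
  | .r1P => 0
  | .r1Da => 0
  | .r1Dc => 0
  | .xP => 100
  | .xT => 100
  | .yapb => 140
  | .ypb => 140
  | .rdbh => 116
  | .g2dE => 8
  | .g2d1 => 8
  | .rhbh => 116
  | .m1d1 => 116
  | .m1bh => 116
  | .qaDa => 0
  | .qcDc => 108
  | .NTs => 128
  | .STs => 128
  | .ErdE => 208

/-- Coarse ordinate of the blue node. -/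
def cby : CE → ℤ
  | .r1T => 64
  | .r1P => 64
  | .r1Da => 64
  | .r1Dc => 64
  | .xP => 0
  | .xT => 0
  | .yapb => 4
  | .ypb => 4
  | .rdbh => 76
  | .g2dE => 92
  | .g2d1 => 40
  | .rhbh => 76
  | .m1d1 => 172
  | .m1bh => 76
  | .qaDa => 64
  | .qcDc => 196
  | .NTs => 12
  | .STs => 12
  | .ErdE => -36

/-- Fine abscissa of the blue node. -/
def cbox : CE → ℤ
  | .r1T => -1
  | .r1P => -1
  | .r1Da => -1
  | .r1Dc => -1
  | .xP => 0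
  | .xT => 0
  | .yapb => 0
  | .ypb => 0
  | .rdbh => 0
  | .g2dE => 0
  | .g2d1 => 0
  | .rhbh => 0
  | .m1d1 => 0
  | .m1bh => 0
  | .qaDa => -1
  | .qcDc => -1
  | .NTs => 0
  | .STs => 0
  | .ErdE => 2

/-- Fine ordinate of the blue node. -/
def cboy : CE → ℤ
  | .r1T => -1
  | .r1P => -1
  | .r1Da => 0
  | .r1Dc => 0
  | .xP => 0
  | .xT => 0
  | .yapb => 0
  | .ypb => 0
  | .rdbh => 0
  | .g2dE => -2
  | .g2d1 => 0
  | .rhbh => 0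
  | .m1d1 => 0
  | .m1bh => 0
  | .qaDa => 0
  | .qcDc => 0
  | .NTs => 0
  | .STs => 0
  | .ErdE => 0

/-- The condition under which the service is used. -/
def RC (m : ℕ) (p : ℕ → ℕ → ℕ) (on : ℕ → ℕ) : RE → ℕ → ℕ → Prop
  | .r1b0, a, b => 1 ≤ a ∧ a < b ∧ b ≤ 3 * m ∧ on b = 1
  | .r1bd, a, b => 1 ≤ a ∧ a = b ∧ b ≤ 3 * m ∧ on b = 1
  | .r1Db, a, b => a = 1 ∧ b % 3 = 2 ∧ b ≤ 3 * m ∧ on (b - 1) = 1
  | .r1Dd, a, b => a = 1 ∧ b % 3 = 0 ∧ 1 ≤ b ∧ b ≤ 3 * m ∧ on b = 0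
  | .xb0, a, b => 1 ≤ a ∧ a < b ∧ b ≤ 3 * m ∧ on b = 0
  | .xpa, a, b => 1 ≤ a ∧ a < b ∧ b ≤ 3 * m ∧ p a b = 0 ∧ on b = 1 ∧ on a = 0
  | .yapa, a, b => 1 ≤ a ∧ a < b ∧ b ≤ 3 * m ∧ p a b = 0 ∧ (on b = 0 ∨ on a = 1)
  | .yT, a, b => 1 ≤ a ∧ a < b ∧ b ≤ 3 * m ∧ p a b = 0 ∧ on b = 1 ∧ on a = 0
  | .rdbd, a, b => 1 ≤ a ∧ a = b ∧ b ≤ 3 * m ∧ on b = 0
  | .g2bp, a, b => 1 ≤ a ∧ a < b ∧ b ≤ 3 * m ∧ p a b = 1 ∧ on a = 1
  | .g2bg, a, b => 1 ≤ a ∧ a < b ∧ b ≤ 3 * m ∧ p a b = 0 ∧ on a = 1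
  | .g2k1, a, b => a % 3 = 1 ∧ a ≤ 3 * m ∧ b = 3 * m + 1 ∧ on a = 1
  | .g2k2, a, b => a % 3 = 2 ∧ a ≤ 3 * m ∧ b = 3 * m + 1 ∧ on a = 1
  | .rhbp, a, b => 1 ≤ a ∧ a < b ∧ b ≤ 3 * m ∧ p a b = 1 ∧ on a = 0
  | .rhbg, a, b => 1 ≤ a ∧ a < b ∧ b ≤ 3 * m ∧ p a b = 0 ∧ on a = 0
  | .qaDb, a, b => a = 1 ∧ b % 3 = 1 ∧ b ≤ 3 * m ∧ on b = 0
  | .qcDd, a, b => a = 1 ∧ b % 3 = 1 ∧ b ≤ 3 * m ∧ on (b + 2) = 1
  | .Nk1, a, b => a % 3 = 1 ∧ a ≤ 3 * m ∧ b = 3 * m + 1 ∧ on a = 0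
  | .Sk2, a, b => a % 3 = 1 ∧ a ≤ 3 * m ∧ b = 3 * m + 1 ∧ on (a + 1) = 0
  | .ErTs, a, b => a % 3 = 1 ∧ a ≤ 3 * m ∧ b = 3 * m + 1 ∧ on (a + 2) = 1

/-- The condition under which the service is used. -/
def CC (m : ℕ) (p : ℕ → ℕ → ℕ) (on : ℕ → ℕ) : CE → ℕ → ℕ → Prop
  | .r1T, a, b => 2 ≤ a ∧ a ≤ b ∧ b ≤ 3 * m ∧ p (a - 1) b = 0 ∧ on b = 0
  | .r1P, a, b => 2 ≤ a ∧ a ≤ b ∧ b ≤ 3 * m ∧ p (a - 1) b = 1 ∧ on b = 0
  | .r1Da, a, b => a = 1 ∧ b % 3 = 1 ∧ b ≤ 3 * m ∧ on b = 0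
  | .r1Dc, a, b => a = 1 ∧ b % 3 = 2 ∧ b ≤ 3 * m ∧ on (b + 1) = 1
  | .xP, a, b => 1 ≤ a ∧ a < b ∧ b ≤ 3 * m ∧ p a b = 1 ∧ on b = 1
  | .xT, a, b => 1 ≤ a ∧ a < b ∧ b ≤ 3 * m ∧ p a b = 0 ∧ on b = 1 ∧ on a = 1
  | .yapb, a, b => 1 ≤ a ∧ a < b ∧ b ≤ 3 * m ∧ p a b = 0 ∧ on b = 1 ∧ on a = 0
  | .ypb, a, b => 1 ≤ a ∧ a < b ∧ b ≤ 3 * m ∧ p a b = 0 ∧ (on b = 0 ∨ on a = 1)
  | .rdbh, a, b => 1 ≤ a ∧ a = b ∧ b ≤ 3 * m ∧ on a = 1
  | .g2dE, a, b => a % 3 = 0 ∧ 1 ≤ a ∧ a ≤ 3 * m ∧ b = 3 * m + 1 ∧ on a = 1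
  | .g2d1, a, b => 1 ≤ a ∧ a ≤ 3 * m ∧ a < b ∧ b ≤ 3 * m + 1 ∧ on a = 0
  | .rhbh, a, b => 1 ≤ a ∧ a < b ∧ b ≤ 3 * m ∧ on a = 1
  | .m1d1, a, b => 1 ≤ a ∧ a ≤ b ∧ b ≤ 3 * m ∧ on a = 1
  | .m1bh, a, b => 1 ≤ a ∧ a ≤ b ∧ b ≤ 3 * m ∧ on a = 0
  | .qaDa, a, b => a = 1 ∧ b % 3 = 1 ∧ b ≤ 3 * m ∧ on b = 1
  | .qcDc, a, b => a = 1 ∧ b % 3 = 1 ∧ b ≤ 3 * m ∧ on (b + 2) = 0
  | .NTs, a, b => a % 3 = 1 ∧ a ≤ 3 * m ∧ b = 3 * m + 1 ∧ on a = 1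
  | .STs, a, b => a % 3 = 1 ∧ a ≤ 3 * m ∧ b = 3 * m + 1 ∧ on (a + 1) = 1
  | .ErdE, a, b => a % 3 = 1 ∧ a ≤ 3 * m ∧ b = 3 * m + 1 ∧ on (a + 2) = 0

/-- What we assume on the set of wires which are on. -/
structure Good (m : ℕ) (p : ℕ → ℕ → ℕ) (on : ℕ → ℕ) : Prop where
  p01 : ∀ a b, p a b = 0 ∨ p a b = 1
  on01 : ∀ b, on b = 0 ∨ on b = 1
  one : ∀ b, b % 3 = 1 → b ≤ 3 * m → on b + on (b + 1) + on (b + 2) = 1
  gadget : ∀ a b, 1 ≤ a → a < b → b ≤ 3 * m → on a = 1 → on b = 1 → p a b = 0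

variable {m : ℕ} {p : ℕ → ℕ → ℕ} {on : ℕ → ℕ} {a b a' b' : ℕ}

/-- Every red node uses some service. -/
lemma exists_edge (hG : Good m p on) {k : Kd} (h : Ex m p k a b) (ht : ty k = .R) :
    (∃ e : RE, rr e = k ∧ RC m p on e a b) ∨ (∃ e : CE, cr e = k ∧ CC m p on e a b) := by
  have hb := hG.on01 b
  have ha := hG.on01 a
  have hp := hG.p01 a b
  cases k <;> first | (exfalso; simp [ty] at ht; done) | skip
  all_goals simp only [Ex] at h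
  · -- r1
    rcases hb with hb | hb
    · by_cases ha2 : 2 ≤ a
      · right
        rcases hG.p01 (a - 1) b with hp | hp
        · exact ⟨.r1T, rfl, ha2, h.2.1, h.2.2, hp, hb⟩
        · exact ⟨.r1P, rfl, ha2, h.2.1, h.2.2, hp, hb⟩
      · have ha1 : a = 1 := by omega
        have h3 : b % 3 = 0 ∨ b % 3 = 1 ∨ b % 3 = 2 := by omega
        rcases h3 with h3 | h3 | h3
        · left
          exact ⟨.r1Dd, rfl, ha1, h3, by omega, h.2.2, hb⟩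
        · right
          exact ⟨.r1Da, rfl, ha1, h3, h.2.2, hb⟩
        · have hone := hG.one (b - 1) (by omega) (by omega)
          rw [show b - 1 + 1 = b by omega, show b - 1 + 2 = b + 1 by omega] at hone
          rcases hG.on01 (b - 1) with h4 | h4
          · right
            exact ⟨.r1Dc, rfl, ha1, h3, h.2.2, by omega⟩
          · left
            exact ⟨.r1Db, rfl, ha1, h3, h.2.2, h4⟩
    · left
      by_cases hab : a = b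
      · exact ⟨.r1bd, rfl, h.1, hab, h.2.2, hb⟩
      · exact ⟨.r1b0, rfl, h.1, by omega, h.2.2, hb⟩
  · -- x
    rcases hb with hb | hb
    · exact Or.inl ⟨.xb0, rfl, h.1, h.2.1, h.2.2, hb⟩
    · rcases hp with hp | hp
      · rcases ha with ha | ha
        · exact Or.inl ⟨.xpa, rfl, h.1, h.2.1, h.2.2, hp, hb, ha⟩
        · exact Or.inr ⟨.xT, rfl, h.1, h.2.1, h.2.2, hp, hb, ha⟩
      · exact Or.inr ⟨.xP, rfl, h.1, h.2.1, h.2.2, hp, hb⟩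
  · -- ya
    by_cases hc : on b = 1 ∧ on a = 0
    · exact Or.inr ⟨.yapb, rfl, h.1, h.2.1, h.2.2.1, h.2.2.2, hc.1, hc.2⟩
    · exact Or.inl ⟨.yapa, rfl, h.1, h.2.1, h.2.2.1, h.2.2.2, by omega⟩
  · -- y
    by_cases hc : on b = 1 ∧ on a = 0
    · exact Or.inl ⟨.yT, rfl, h.1, h.2.1, h.2.2.1, h.2.2.2, hc.1, hc.2⟩
    · exact Or.inr ⟨.ypb, rfl, h.1, h.2.1, h.2.2.1, h.2.2.2, by omega⟩
  · -- g2
    rcases ha with ha | ha
    · exact Or.inr ⟨.g2d1, rfl, h.1, h.2.1, h.2.2.1, h.2.2.2, ha⟩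
    · by_cases hb2 : b ≤ 3 * m
      · left
        rcases hp with hp | hp
        · exact ⟨.g2bg, rfl, h.1, h.2.2.1, hb2, hp, ha⟩
        · exact ⟨.g2bp, rfl, h.1, h.2.2.1, hb2, hp, ha⟩
      · have hb3 : b = 3 * m + 1 := by omega
        have h3 : a % 3 = 0 ∨ a % 3 = 1 ∨ a % 3 = 2 := by omega
        rcases h3 with h3 | h3 | h3
        · exact Or.inr ⟨.g2dE, rfl, h3, h.1, h.2.1, hb3, ha⟩
        · exact Or.inl ⟨.g2k1, rfl, h3, h.2.1, hb3, ha⟩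
        · exact Or.inl ⟨.g2k2, rfl, h3, h.2.1, hb3, ha⟩
  · -- rh
    rcases ha with ha | ha
    · left
      rcases hp with hp | hp
      · exact ⟨.rhbg, rfl, h.1, h.2.1, h.2.2, hp, ha⟩
      · exact ⟨.rhbp, rfl, h.1, h.2.1, h.2.2, hp, ha⟩
    · exact Or.inr ⟨.rhbh, rfl, h.1, h.2.1, h.2.2, ha⟩
  · -- m1
    rcases ha with ha | ha
    · exact Or.inr ⟨.m1bh, rfl, h.1, h.2.1, h.2.2, ha⟩
    · exact Or.inr ⟨.m1d1, rfl, h.1, h.2.1, h.2.2, ha⟩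
  · -- rd
    rcases hb with hb | hb
    · exact Or.inl ⟨.rdbd, rfl, h.1, h.2.1, h.2.2, hb⟩
    · exact Or.inr ⟨.rdbh, rfl, h.1, h.2.1, h.2.2, by rw [h.2.1]; exact hb⟩
  · -- qa
    rcases hb with hb | hb
    · exact Or.inl ⟨.qaDb, rfl, h.1, h.2.1, h.2.2, hb⟩
    · exact Or.inr ⟨.qaDa, rfl, h.1, h.2.1, h.2.2, hb⟩
  · -- qc
    rcases hG.on01 (b + 2) with hb | hb
    · exact Or.inr ⟨.qcDc, rfl, h.1, h.2.1, h.2.2, hb⟩
    · exact Or.inl ⟨.qcDd, rfl, h.1, h.2.1, h.2.2, hb⟩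
  · -- N
    rcases ha with ha | ha
    · exact Or.inl ⟨.Nk1, rfl, h.1, h.2.1, h.2.2, ha⟩
    · exact Or.inr ⟨.NTs, rfl, h.1, h.2.1, h.2.2, ha⟩
  · -- S
    rcases hG.on01 (a + 1) with ha | ha
    · exact Or.inl ⟨.Sk2, rfl, h.1, h.2.1, h.2.2, ha⟩
    · exact Or.inr ⟨.STs, rfl, h.1, h.2.1, h.2.2, ha⟩
  · -- Er
    rcases hG.on01 (a + 2) with ha | ha
    · exact Or.inr ⟨.ErdE, rfl, h.1, h.2.1, h.2.2, ha⟩
    · exact Or.inl ⟨.ErTs, rfl, h.1, h.2.1, h.2.2, ha⟩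

set_option linter.unusedSimpArgs false

lemma rc_ex_red (e : RE) (h : RC m p on e a b) : Ex m p (rr e) a b ∧ ty (rr e) = .R := by
  cases e <;> simp only [RC, rr, Ex, ty, and_true] at h ⊢ <;> omega

lemma rc_ex_blue (e : RE) (h : RC m p on e a b) :
    Ex m p (rb e) (a - rsa e) (b - rsb e) ∧ rsa e ≤ a ∧ rsb e ≤ b := by
  cases e <;> simp only [RC, rb, rsa, rsb, Ex, Nat.sub_zero] at h ⊢ <;> omega

lemma cc_ex_red (e : CE) (h : CC m p on e a b) : Ex m p (cr e) a b ∧ ty (cr e) = .R := by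
  cases e <;> simp only [CC, cr, Ex, ty, and_true] at h ⊢ <;> omega

lemma cc_ex_blue (e : CE) (h : CC m p on e a b) :
    Ex m p (cb e) (a - csa e) (b - csb e) ∧ csa e ≤ a ∧ csb e ≤ b := by
  cases e <;> simp only [CC, cb, csa, csb, Ex, Nat.sub_zero] at h ⊢ <;>
    (try simp only [true_and]) <;> omega

lemma rb_coord (e : RE) (ha : rsa e ≤ a) (hb : rsb e ≤ b) :
    cX (rb e) (a - rsa e) (b - rsb e) = 100 * a + 108 * b + rbx e ∧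
    cY (rb e) (a - rsa e) (b - rsb e) = -64 * a + 132 * b + rby e ∧
    eX (rb e) (a - rsa e) = a + rbox e ∧ eY (rb e) (a - rsa e) = a + rboy e := by
  cases e <;> simp only [rb, rsa, rsb, rbx, rby, rbox, rboy, cX, cY, eX, eY, dx, dy, ox, oy]
    at ha hb ⊢ <;> omega

lemma cb_coord (e : CE) (ha : csa e ≤ a) (hb : csb e ≤ b) :
    cX (cb e) (a - csa e) (b - csb e) = 100 * a + 108 * b + cbx e ∧
    cY (cb e) (a - csa e) (b - csb e) = -64 * a + 132 * b + cby e ∧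
    eX (cb e) (a - csa e) = a + cbox e ∧ eY (cb e) (a - csa e) = a + cboy e := by
  cases e <;> simp only [cb, csa, csb, cbx, cby, cbox, cboy, cX, cY, eX, eY, dx, dy, ox, oy]
    at ha hb ⊢ <;> omega

/-- The services of `RE` are along rows. -/
lemma re_row : ∀ e : RE, rby e = dy (rr e) ∧ rboy e = oy (rr e) ∧
    (ty (rb e) = .H ∨ (ty (rb e) = .T ∧ rbx e < dx (rr e))) ∧
    ¬ (rbx e = dx (rr e) ∧ rbox e = ox (rr e)) := by
  decide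

/-- The services of `CE` are along columns. -/
lemma ce_col : ∀ e : CE, cbx e = dx (cr e) ∧ cbox e = ox (cr e) ∧
    (ty (cb e) = .V ∨ ty (cb e) = .T) ∧ ¬ (cby e = dy (cr e) ∧ cboy e = oy (cr e)) := by
  decide

/-- The red node served, as a function of the blue node. -/
def ginv (on : ℕ → ℕ) : Kd × ℕ × ℕ → Kd × ℕ × ℕ
  | (.b0, a, b) => if on b = 1 then (.r1, a, b) else (.x, a, b)
  | (.bd, a, b) => if on b = 1 then (.r1, a, b) else (.rd, a, b)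
  | (.Db, a, b) => if on b = 1 then (.r1, a, b + 1) else (.qa, a, b)
  | (.Dd, a, b) => if on (b + 2) = 1 then (.qc, a, b) else (.r1, a, b + 2)
  | (.pa, a, b) => if on b = 1 ∧ on a = 0 then (.x, a, b) else (.ya, a, b)
  | (.T, a, b) => if on b = 0 then (.r1, a + 1, b) else if on a = 1 then (.x, a, b) else (.y, a, b)
  | (.P, a, b) => if on b = 1 then (.x, a, b) else (.r1, a + 1, b)
  | (.pb, a, b) => if on b = 1 ∧ on a = 0 then (.ya, a, b) else (.y, a, b)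
  | (.bp, a, b) => if on a = 1 then (.g2, a, b) else (.rh, a, b)
  | (.bg, a, b) => if on a = 1 then (.g2, a, b) else (.rh, a, b)
  | (.bh2, a, b) => if on a = 0 then (.m1, a, b) else if a = b then (.rd, a, b) else (.rh, a, b)
  | (.d1, a, b) => if on a = 1 then (.m1, a, b) else (.g2, a, b + 1)
  | (.Da, a, b) => if on b = 1 then (.qa, a, b) else (.r1, a, b)
  | (.Dc, a, b) => if on (b + 2) = 1 then (.r1, a, b + 1) else (.qc, a, b)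
  | (.k1, a, b) => if on a = 1 then (.g2, a, b) else (.N, a, b)
  | (.k2, a, b) => if on (a + 1) = 1 then (.g2, a + 1, b) else (.S, a, b)
  | (.Ts, a, b) => if on a = 1 then (.N, a, b) else if on (a + 1) = 1 then (.S, a, b) else
      (.Er, a, b)
  | (.dE, a, b) => if on (a + 2) = 1 then (.g2, a + 2, b) else (.Er, a, b)
  | N => N

lemma ginv_rb (hG : Good m p on) (e : RE) (h : RC m p on e a b) :
    ginv on (rb e, a - rsa e, b - rsb e) = (rr e, a, b) := by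
  cases e <;> simp only [RC] at h <;> simp only [rb, rr, rsa, rsb, ginv, Nat.sub_zero]
  case r1Db =>
    rw [if_pos h.2.2.2, show b - 1 + 1 = b by omega]
  case r1Dd =>
    rw [show b - 2 + 2 = b by omega, if_neg (by omega)]
  case yT =>
    rw [if_neg (by omega), if_neg (by omega)]
  case g2k2 =>
    rw [show a - 1 + 1 = a by omega, if_pos h.2.2.2]
  case ErTs =>
    have := hG.one a h.1 h.2.1
    rw [if_neg (by omega), if_neg (by omega)]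
  all_goals first
    | rw [if_pos (by omega)]
    | rw [if_neg (by omega)]

lemma ginv_cb (hG : Good m p on) (e : CE) (h : CC m p on e a b) :
    ginv on (cb e, a - csa e, b - csb e) = (cr e, a, b) := by
  cases e <;> simp only [CC] at h <;> simp only [cb, cr, csa, csb, ginv, Nat.sub_zero]
  case r1T =>
    rw [if_pos h.2.2.2.2, show a - 1 + 1 = a by omega]
  case r1P =>
    rw [if_neg (by omega), show a - 1 + 1 = a by omega]
  case r1Dc =>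
    rw [show b - 1 + 2 = b + 1 by omega, if_pos h.2.2.2, show b - 1 + 1 = b by omega]
  case xT =>
    rw [if_neg (by omega), if_pos (by omega)]
  case rdbh =>
    rw [if_neg (by omega), if_pos (by omega)]
  case rhbh =>
    rw [if_neg (by omega), if_neg (by omega)]
  case g2dE =>
    rw [show a - 2 + 2 = a by omega, if_pos h.2.2.2.2]
  case g2d1 =>
    rw [if_neg (by omega), show b - 1 + 1 = b by omega]
  case STs =>
    have := hG.one a h.1 h.2.1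
    rw [if_neg (by omega), if_pos (by omega)]
  all_goals first
    | rw [if_pos (by omega)]
    | rw [if_neg (by omega)]

end Sat

end Pool.Agent.AreaTri
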