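import Pool.Agent.AreaTri.Sat.Comp1

/-!
# Completeness of the SAT layout: no crossings
-/

namespace Pool.Agent.AreaTri

namespace Sat

/-- Coarse crossing of the row service `e` at `(a, b)` with the column service `e'` at
`(a + u, b + v)`. -/
def crossB (e : RE) (e' : CE) (u v : ℤ) : Bool :=
  (decide (min (rbx e) (2 * dx (rr e) - rbx e) ≤ 100 * u + 108 * v + dx (cr e')) &&
    decide (100 * u + 108 * v + dx (cr e') ≤ max (rbx e) (2 * dx (rr e) - rbx e))) &&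
  (decide (min (cby e') (2 * dy (cr e') - cby e') ≤ 64 * u - 132 * v + dy (rr e)) &&
    decide (64 * u - 132 * v + dy (rr e) ≤ max (cby e') (2 * dy (cr e') - cby e')))

/-- All coarse crossings. -/
def tab : List (RE × CE × ℤ × ℤ) :=
  [(.r1b0, .g2dE, 0, 0), (.r1b0, .qaDa, 1, -1), (.r1b0, .qcDc, 1, -2), (.r1b0, .STs, -1, 0),
    (.r1bd, .g2dE, 0, 0), (.r1bd, .qaDa, 1, -1), (.r1bd, .qcDc, 1, -2), (.r1bd, .STs, -1, 0),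
    (.r1Db, .g2dE, 0, 0), (.r1Db, .qaDa, 1, -1), (.r1Db, .qcDc, 1, -2), (.r1Db, .STs, -1, 0),
    (.r1Dd, .g2dE, 0, 0), (.r1Dd, .qaDa, 1, -1), (.r1Dd, .qcDc, 1, -2), (.r1Dd, .STs, -1, 0),
    (.xb0, .qaDa, 1, 0), (.xb0, .qcDc, 1, -1), (.xb0, .ErdE, -1, 0), (.xpa, .rdbh, 0, 0),
    (.xpa, .rhbh, 0, 0), (.xpa, .qaDa, 1, 0), (.xpa, .qcDc, 1, -1), (.xpa, .NTs, 0, 0),
    (.xpa, .ErdE, -1, 0), (.yT, .r1T, 1, 0), (.yT, .r1P, 1, 0), (.yT, .r1Da, 1, 0),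
    (.yT, .r1Dc, 1, 0), (.yT, .xP, 0, 0), (.yT, .xT, 0, 0), (.yT, .g2dE, 1, 0),
    (.yT, .qaDa, 1, 0), (.yT, .qcDc, 1, -1), (.yT, .STs, 0, 0), (.rdbd, .xP, 0, 0),
    (.rdbd, .xT, 0, 0), (.rdbd, .yapb, 0, 0), (.rdbd, .rhbh, 0, 0), (.rdbd, .qaDa, 1, 0),
    (.rdbd, .qcDc, 1, -1), (.rdbd, .NTs, 0, 0), (.rdbd, .ErdE, -1, 0), (.g2bp, .xP, 0, 0),
    (.g2bp, .xT, 0, 0), (.g2bp, .qaDa, 1, -1), (.g2bp, .qaDa, 1, 0), (.g2bp, .qaDa, 2, -1),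
    (.g2bp, .qcDc, 1, -2), (.g2bp, .qcDc, 1, -1), (.g2bp, .qcDc, 2, -2), (.g2bp, .STs, -1, 0),
    (.g2bg, .qaDa, 1, -1), (.g2bg, .qaDa, 2, -1), (.g2bg, .qcDc, 1, -2), (.g2bg, .qcDc, 2, -2),
    (.g2bg, .STs, -1, 0), (.g2k1, .qaDa, 1, -1), (.g2k1, .qcDc, 1, -2), (.g2k1, .STs, -1, 0),
    (.rhbp, .rdbh, 0, 0), (.rhbp, .NTs, 0, 0), (.rhbp, .ErdE, -1, 0), (.rhbg, .xP, 0, 0),
    (.rhbg, .xT, 0, 0), (.rhbg, .rdbh, 0, 0), (.rhbg, .qaDa, 1, 0), (.rhbg, .qcDc, 1, -1),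
    (.rhbg, .NTs, 0, 0), (.rhbg, .ErdE, -1, 0), (.qaDb, .m1d1, -1, 0), (.qaDb, .m1bh, -1, 0),
    (.qaDb, .qcDc, 0, -1), (.qaDb, .ErdE, -2, 0), (.qcDd, .m1d1, -1, 1), (.qcDd, .m1bh, -1, 1),
    (.qcDd, .qaDa, 0, 1), (.qcDd, .ErdE, -2, 1), (.Nk1, .xP, 0, 0), (.Nk1, .xT, 0, 0),
    (.Nk1, .yapb, 0, 0), (.Nk1, .rdbh, 0, 0), (.Nk1, .rhbh, 0, 0), (.Nk1, .qaDa, 1, 0),
    (.Nk1, .qaDa, 2, -1), (.Nk1, .qcDc, 1, -1), (.Nk1, .qcDc, 2, -2), (.Nk1, .ErdE, -1, 0),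
    (.ErTs, .xP, 1, 0), (.ErTs, .xT, 1, 0), (.ErTs, .yapb, 0, 0), (.ErTs, .yapb, 1, 0),
    (.ErTs, .rdbh, 1, 0), (.ErTs, .rhbh, 1, 0), (.ErTs, .m1d1, 1, 0), (.ErTs, .m1bh, 1, 0),
    (.ErTs, .qaDa, 2, 0), (.ErTs, .qcDc, 2, -1), (.ErTs, .NTs, 0, 0), (.ErTs, .NTs, 1, 0),
    (.ErTs, .STs, 0, 0)]

set_option maxRecDepth 100000 in
theorem cross_table : ∀ e : RE, ∀ e' : CE, ∀ i : Fin 9, ∀ j : Fin 7,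
    crossB e e' (((i : ℕ) : ℤ) - 4) (((j : ℕ) : ℤ) - 3) = true →
    ((rr e = cr e' ∧ (i : ℕ) = 4 ∧ (j : ℕ) = 3) ∨
      (e, e', (((i : ℕ) : ℤ) - 4), (((j : ℕ) : ℤ) - 3)) ∈ tab) := by
  decide

lemma re_bd : ∀ e : RE, -88 ≤ min (rbx e) (2 * dx (rr e) - rbx e) ∧
    max (rbx e) (2 * dx (rr e) - rbx e) ≤ 288 ∧ -20 ≤ dy (rr e) ∧ dy (rr e) ≤ 320 := by
  decide

lemma ce_bd : ∀ e : CE, -52 ≤ min (cby e) (2 * dy (cr e) - cby e) ∧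
    max (cby e) (2 * dy (cr e) - cby e) ≤ 444 ∧ 0 ≤ dx (cr e) ∧ dx (cr e) ≤ 208 := by
  decide

variable {m : ℕ} {p : ℕ → ℕ → ℕ} {on : ℕ → ℕ} {a b a' b' : ℕ}

/-- The crossings of the table do not occur. -/
lemma tab_false (hG : Good m p on) : ∀ t ∈ tab, ∀ a b a' b' : ℕ, RC m p on t.1 a b →
    CC m p on t.2.1 a' b' → (a' : ℤ) = a + t.2.2.1 → (b' : ℤ) = b + t.2.2.2 → False := by
  have key : ∀ (e : RE) (e' : CE) (a b a' b' : ℕ), RC m p on e a b → CC m p on e' a' b' →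
      (a' = a → b' = b → on a' = on a ∧ on b' = on b ∧ on (a' + 1) = on (a + 1) ∧ p a' b' = p a b) ∧
      (a' = a + 1 → b' = b → on a' = on (a + 1) ∧ on b' = on b ∧ p (a' - 1) b' = p a b) := by
    intro e e' a b a' b' _ _
    constructor
    · rintro rfl rfl; exact ⟨rfl, rfl, rfl, rfl⟩
    · rintro rfl rfl; exact ⟨rfl, rfl, rfl⟩
  unfold tab
  simp only [List.forall_mem_cons, List.not_mem_nil, IsEmpty.forall_iff, implies_true, and_true]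
  refine ⟨?_, ?_, ?_, ?_, ?_, ?_, ?_, ?_, ?_, ?_, ?_, ?_, ?_, ?_, ?_, ?_, ?_, ?_, ?_, ?_, ?_,
    ?_, ?_, ?_, ?_, ?_, ?_, ?_, ?_, ?_, ?_, ?_, ?_, ?_, ?_, ?_, ?_, ?_, ?_, ?_, ?_, ?_, ?_, ?_,
    ?_, ?_, ?_, ?_, ?_, ?_, ?_, ?_, ?_, ?_, ?_, ?_, ?_, ?_, ?_, ?_, ?_, ?_, ?_, ?_, ?_, ?_, ?_,
    ?_, ?_, ?_, ?_, ?_, ?_, ?_, ?_, ?_, ?_, ?_, ?_, ?_, ?_, ?_, ?_, ?_, ?_, ?_, ?_, ?_, ?_, ?_,
    ?_, ?_, ?_, ?_, ?_, ?_, ?_, ?_, ?_, ?_, ?_⟩ <;>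
  · intro a b a' b' h h' hu hv
    have hk := key _ _ a b a' b' h h'
    have hone := hG.one a
    have hga := hG.gadget a b
    simp only [RC, CC] at h h'
    omega

end Sat

end Pool.Agent.AreaTri
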