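import Pool.Agent.AreaTri.LayoutDef

/-!
# The SAT layout: definitions

Wires are numbered `1, …, n`, `n = 3 m`; wires `3j+1, 3j+2, 3j+3` belong to clause `j`.
The nodes of the layout are indexed by a kind and two natural numbers `a, b`; their positions are
`(K (100 a + 108 b + dx) + a + ox + M, K (-64 a + 132 b + dy) + a + oy + M)`
with `K = 4 (n + 4)` and `M = satBound m`.
-/

namespace Pool.Agent.AreaTri

namespace Sat

/-- Kinds of nodes. -/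
inductive Kd
  | r1 | b0 | x | pa | ya | P | T | y | pb | g2 | bg | bp | rh | bh2 | m1 | d1 | bd | rd | Da | qa | Db | Dc | qc | Dd | k1 | N | k2 | S | Ts | dE | Er
  deriving DecidableEq

instance : Fintype Kd :=
  ⟨⟨([.r1, .b0, .x, .pa, .ya, .P, .T, .y, .pb, .g2, .bg, .bp, .rh, .bh2, .m1, .d1, .bd, .rd, .Da, .qa, .Db, .Dc, .qc, .Dd, .k1, .N, .k2, .S, .Ts, .dE, .Er] : List Kd), by decide⟩, by intro k; cases k <;> decide⟩

/-- Red nodes `R`, and the three kinds `H, V, T` of blue nodes. -/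
inductive Ty
  | R | H | V | T
  deriving DecidableEq

/-- The colour and service type of a kind. -/
def ty : Kd → Ty
  | .r1 => .R
  | .b0 => .H
  | .x => .R
  | .pa => .H
  | .ya => .R
  | .P => .V
  | .T => .T
  | .y => .R
  | .pb => .V
  | .g2 => .R
  | .bg => .H
  | .bp => .H
  | .rh => .R
  | .bh2 => .V
  | .m1 => .R
  | .d1 => .V
  | .bd => .H
  | .rd => .R
  | .Da => .V
  | .qa => .R
  | .Db => .H
  | .Dc => .V
  | .qc => .R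
  | .Dd => .H
  | .k1 => .H
  | .N => .R
  | .k2 => .H
  | .S => .R
  | .Ts => .T
  | .dE => .V
  | .Er => .R

/-- Coarse horizontal offset. -/
def dx : Kd → ℤ
  | .r1 => 0
  | .b0 => 88
  | .x => 100
  | .pa => 136
  | .ya => 140
  | .P => 100
  | .T => 100
  | .y => 140
  | .pb => 140
  | .g2 => 8
  | .bg => 96
  | .bp => 104
  | .rh => 116
  | .bh2 => 116
  | .m1 => 116
  | .d1 => 116
  | .bd => 60
  | .rd => 116
  | .Da => 0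
  | .qa => 0
  | .Db => 54
  | .Dc => 108
  | .qc => 108
  | .Dd => 162
  | .k1 => 68
  | .N => 128
  | .k2 => 118
  | .S => 128
  | .Ts => 128
  | .dE => 208
  | .Er => 208

/-- Coarse vertical offset. -/
def dy : Kd → ℤ
  | .r1 => 56
  | .b0 => 56
  | .x => 56
  | .pa => 56
  | .ya => 56
  | .P => 0
  | .T => 0
  | .y => 0
  | .pb => 4
  | .g2 => 44
  | .bg => 44
  | .bp => 44
  | .rh => 44
  | .bh2 => 76
  | .m1 => 120
  | .d1 => 172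
  | .bd => 56
  | .rd => 56
  | .Da => 64
  | .qa => 188
  | .Db => 188
  | .Dc => 196
  | .qc => 320
  | .Dd => 320
  | .k1 => 44
  | .N => 44
  | .k2 => -20
  | .S => -20
  | .Ts => 12
  | .dE => -36
  | .Er => 12

/-- Fine horizontal offset. -/
def ox : Kd → ℤ
  | .r1 => -1
  | .b0 => 0
  | .x => 0
  | .pa => 0
  | .ya => 0
  | .P => 0
  | .T => 0
  | .y => 0
  | .pb => 0
  | .g2 => 0
  | .bg => 0
  | .bp => 0
  | .rh => 0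
  | .bh2 => 0
  | .m1 => 0
  | .d1 => 0
  | .bd => 0
  | .rd => 0
  | .Da => -1
  | .qa => -1
  | .Db => 0
  | .Dc => -1
  | .qc => -1
  | .Dd => 0
  | .k1 => 0
  | .N => 0
  | .k2 => 0
  | .S => 0
  | .Ts => 0
  | .dE => 2
  | .Er => 2

/-- Fine vertical offset. -/
def oy : Kd → ℤ
  | .r1 => 0
  | .b0 => 0
  | .x => 0
  | .pa => 0
  | .ya => 0
  | .P => 0
  | .T => 0
  | .y => 0
  | .pb => 0
  | .g2 => 0
  | .bg => 0
  | .bp => 0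
  | .rh => 0
  | .bh2 => 0
  | .m1 => 0
  | .d1 => 0
  | .bd => 0
  | .rd => 0
  | .Da => 0
  | .qa => 0
  | .Db => 0
  | .Dc => 0
  | .qc => 0
  | .Dd => 0
  | .k1 => 0
  | .N => 0
  | .k2 => 1
  | .S => 1
  | .Ts => 0
  | .dE => 0
  | .Er => 0

/-- Which nodes `(k, a, b)` exist, for `m` clauses; `p a b = 1` for a plain crossing, `0` for a
crossing with a gadget. -/
def Ex (m : ℕ) (p : ℕ → ℕ → ℕ) : Kd → ℕ → ℕ → Prop
  | .r1, a, b => 1 ≤ a ∧ a ≤ b ∧ b ≤ 3 * m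
  | .b0, a, b => 1 ≤ a ∧ a < b ∧ b ≤ 3 * m
  | .x, a, b => 1 ≤ a ∧ a < b ∧ b ≤ 3 * m
  | .pa, a, b => 1 ≤ a ∧ a < b ∧ b ≤ 3 * m ∧ p a b = 0
  | .ya, a, b => 1 ≤ a ∧ a < b ∧ b ≤ 3 * m ∧ p a b = 0
  | .P, a, b => 1 ≤ a ∧ a < b ∧ b ≤ 3 * m ∧ p a b = 1
  | .T, a, b => 1 ≤ a ∧ a < b ∧ b ≤ 3 * m ∧ p a b = 0
  | .y, a, b => 1 ≤ a ∧ a < b ∧ b ≤ 3 * m ∧ p a b = 0
  | .pb, a, b => 1 ≤ a ∧ a < b ∧ b ≤ 3 * m ∧ p a b = 0
  | .g2, a, b => 1 ≤ a ∧ a ≤ 3 * m ∧ a < b ∧ b ≤ 3 * m + 1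
  | .bg, a, b => 1 ≤ a ∧ a < b ∧ b ≤ 3 * m ∧ p a b = 0
  | .bp, a, b => 1 ≤ a ∧ a < b ∧ b ≤ 3 * m ∧ p a b = 1
  | .rh, a, b => 1 ≤ a ∧ a < b ∧ b ≤ 3 * m
  | .bh2, a, b => 1 ≤ a ∧ a ≤ b ∧ b ≤ 3 * m
  | .m1, a, b => 1 ≤ a ∧ a ≤ b ∧ b ≤ 3 * m
  | .d1, a, b => 1 ≤ a ∧ a ≤ b ∧ b ≤ 3 * m
  | .bd, a, b => 1 ≤ a ∧ a = b ∧ b ≤ 3 * m
  | .rd, a, b => 1 ≤ a ∧ a = b ∧ b ≤ 3 * m
  | .Da, a, b => a = 1 ∧ b % 3 = 1 ∧ b ≤ 3 * m
  | .qa, a, b => a = 1 ∧ b % 3 = 1 ∧ b ≤ 3 * m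
  | .Db, a, b => a = 1 ∧ b % 3 = 1 ∧ b ≤ 3 * m
  | .Dc, a, b => a = 1 ∧ b % 3 = 1 ∧ b ≤ 3 * m
  | .qc, a, b => a = 1 ∧ b % 3 = 1 ∧ b ≤ 3 * m
  | .Dd, a, b => a = 1 ∧ b % 3 = 1 ∧ b ≤ 3 * m
  | .k1, a, b => a % 3 = 1 ∧ a ≤ 3 * m ∧ b = 3 * m + 1
  | .N, a, b => a % 3 = 1 ∧ a ≤ 3 * m ∧ b = 3 * m + 1
  | .k2, a, b => a % 3 = 1 ∧ a ≤ 3 * m ∧ b = 3 * m + 1
  | .S, a, b => a % 3 = 1 ∧ a ≤ 3 * m ∧ b = 3 * m + 1
  | .Ts, a, b => a % 3 = 1 ∧ a ≤ 3 * m ∧ b = 3 * m + 1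
  | .dE, a, b => a % 3 = 1 ∧ a ≤ 3 * m ∧ b = 3 * m + 1
  | .Er, a, b => a % 3 = 1 ∧ a ≤ 3 * m ∧ b = 3 * m + 1

instance (m : ℕ) (p : ℕ → ℕ → ℕ) (k : Kd) (a b : ℕ) : Decidable (Ex m p k a b) := by
  cases k <;> (unfold Ex; infer_instance)

/-- Coarse horizontal coordinate. -/
def cX (k : Kd) (a b : ℕ) : ℤ := 100 * a + 108 * b + dx k

/-- Coarse vertical coordinate. -/
def cY (k : Kd) (a b : ℕ) : ℤ := -64 * a + 132 * b + dy k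

/-- Fine horizontal coordinate. -/
def eX (k : Kd) (a : ℕ) : ℤ := a + ox k

/-- Fine vertical coordinate. -/
def eY (k : Kd) (a : ℕ) : ℤ := a + oy k

/-- The scaling factor. -/
def KK (m : ℕ) : ℤ := 4 * (3 * m + 4)

/-- Size parameter of the layout. -/
def bound (m : ℕ) : ℤ := 1600 * (3 * m + 4) ^ 2

/-- Position of a node. -/
def pos (m : ℕ) (N : Kd × ℕ × ℕ) : ℤ × ℤ :=
  (KK m * cX N.1 N.2.1 N.2.2 + eX N.1 N.2.1 + bound m,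
    KK m * cY N.1 N.2.1 N.2.2 + eY N.1 N.2.1 + bound m)

/-- All nodes of the layout. -/
def names (m : ℕ) (p : ℕ → ℕ → ℕ) : Finset (Kd × ℕ × ℕ) :=
  ((Finset.univ : Finset Kd) ×ˢ (Finset.range (3 * m + 2) ×ˢ Finset.range (3 * m + 2))).filter
    fun N => Ex m p N.1 N.2.1 N.2.2

/-- Positions of the nodes of given type. -/
def sel (m : ℕ) (p : ℕ → ℕ → ℕ) (t : Ty) : Finset (ℤ × ℤ) :=
  ((names m p).filter fun N => ty N.1 = t).image (pos m)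

/-- The layout. -/
def lay (m : ℕ) (p : ℕ → ℕ → ℕ) : Layout where
  R := sel m p .R
  H := sel m p .H
  V := sel m p .V
  T := sel m p .T

end Sat

/-- The layout of a 3SAT instance with `m` clauses; `plain a b` says that the literals number `a` and
`b` (`1 ≤ a < b ≤ 3m`) must not both be selected. -/
def satLayout (m : ℕ) (plain : ℕ → ℕ → Bool) : Layout := Sat.lay m fun a b => (plain a b).toNat

/-- The size parameter of `satLayout m _`. -/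
def satBound (m : ℕ) : ℤ := Sat.bound m

end Pool.Agent.AreaTri
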