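import Pool.Agent.AreaTri.Sat.Def

/-!
# The SAT layout: coordinates
-/

namespace Pool.Agent.AreaTri

namespace Sat

section Lex

variable {K X Y e e' : ℤ}

lemma lex_le (hK : 0 < K) (h : K * X + e ≤ K * Y + e') (he : e' - e < K) : X ≤ Y := by
  by_contra hcon
  push Not at hcon
  have h1 : K * (Y + 1) ≤ K * X := mul_le_mul_of_nonneg_left hcon hK.le
  nlinarith

lemma lex_of_lt (hK : 0 < K) (h : X < Y) (he : e - e' ≤ K) : K * X + e ≤ K * Y + e' := by
  have h1 : K * (X + 1) ≤ K * Y := mul_le_mul_of_nonneg_left h hK.le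
  nlinarith

lemma lex_eq_iff (hK : 0 < K) (he : 0 ≤ e) (he' : 0 ≤ e') (h : e < K) (h' : e' < K) :
    K * X + e = K * Y + e' ↔ X = Y ∧ e = e' := by
  constructor
  · intro hh
    have h1 : X ≤ Y := lex_le hK hh.le (by linarith)
    have h2 : Y ≤ X := lex_le hK hh.ge (by linarith)
    have h3 : X = Y := le_antisymm h1 h2
    refine ⟨h3, ?_⟩
    rw [h3] at hh
    linarith
  · rintro ⟨rfl, rfl⟩; rfl

lemma lex_lt_iff (hK : 0 < K) (he : 0 ≤ e) (he' : 0 ≤ e') (h : e < K) (h' : e' < K) :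
    K * X + e < K * Y + e' ↔ X < Y ∨ (X = Y ∧ e < e') := by
  constructor
  · intro hh
    have h1 : X ≤ Y := lex_le hK hh.le (by linarith)
    rcases h1.lt_or_eq with h2 | h2
    · exact Or.inl h2
    · right
      refine ⟨h2, ?_⟩
      rw [h2] at hh
      linarith
  · rintro (h1 | ⟨rfl, h1⟩)
    · have := lex_of_lt (e := e + 1) (e' := e') hK h1 (by linarith)
      linarith
    · linarith

end Lex

variable {m : ℕ} {p : ℕ → ℕ → ℕ} {k k' : Kd} {a b a' b' : ℕ}

lemma KK_pos (m : ℕ) : 0 < KK m := by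
  unfold KK; positivity

lemma eX_nonneg (h : Ex m p k a b) : 0 ≤ eX k a := by
  cases k <;> simp only [Ex, eX, ox] at * <;> omega

lemma eX_le (h : Ex m p k a b) : eX k a ≤ 3 * m + 2 := by
  cases k <;> simp only [Ex, eX, ox] at * <;> omega

lemma eY_nonneg (h : Ex m p k a b) : 0 ≤ eY k a := by
  cases k <;> simp only [Ex, eY, oy] at * <;> omega

lemma eY_le (h : Ex m p k a b) : eY k a ≤ 3 * m + 2 := by
  cases k <;> simp only [Ex, eY, oy] at * <;> omega

lemma eX_lt (h : Ex m p k a b) : eX k a < KK m := by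
  have := eX_le h
  unfold KK; omega

lemma eY_lt (h : Ex m p k a b) : eY k a < KK m := by
  have := eY_le h
  unfold KK; omega

lemma fst_eq_iff (h : Ex m p k a b) (h' : Ex m p k' a' b') :
    (pos m (k, a, b)).1 = (pos m (k', a', b')).1 ↔ cX k a b = cX k' a' b' ∧ eX k a = eX k' a' := by
  unfold pos
  rw [add_left_inj]
  exact lex_eq_iff (KK_pos m) (eX_nonneg h) (eX_nonneg h') (eX_lt h) (eX_lt h')

lemma snd_eq_iff (h : Ex m p k a b) (h' : Ex m p k' a' b') :
    (pos m (k, a, b)).2 = (pos m (k', a', b')).2 ↔ cY k a b = cY k' a' b' ∧ eY k a = eY k' a' := by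
  unfold pos
  rw [add_left_inj]
  exact lex_eq_iff (KK_pos m) (eY_nonneg h) (eY_nonneg h') (eY_lt h) (eY_lt h')

lemma fst_lt_iff (h : Ex m p k a b) (h' : Ex m p k' a' b') :
    (pos m (k, a, b)).1 < (pos m (k', a', b')).1 ↔
      cX k a b < cX k' a' b' ∨ (cX k a b = cX k' a' b' ∧ eX k a < eX k' a') := by
  unfold pos
  rw [add_lt_add_iff_right]
  exact lex_lt_iff (KK_pos m) (eX_nonneg h) (eX_nonneg h') (eX_lt h) (eX_lt h')

lemma snd_lt_iff (h : Ex m p k a b) (h' : Ex m p k' a' b') :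
    (pos m (k, a, b)).2 < (pos m (k', a', b')).2 ↔
      cY k a b < cY k' a' b' ∨ (cY k a b = cY k' a' b' ∧ eY k a < eY k' a') := by
  unfold pos
  rw [add_lt_add_iff_right]
  exact lex_lt_iff (KK_pos m) (eY_nonneg h) (eY_nonneg h') (eY_lt h) (eY_lt h')

lemma Ex_bd (h : Ex m p k a b) : a ≤ 3 * m ∧ b ≤ 3 * m + 1 ∧ 1 ≤ a ∧ a ≤ b := by
  cases k <;> simp only [Ex] at h <;> omega

/-- Table of the coincidences of the offsets. -/
lemma offset_table : ∀ k k' : Kd, ox k' - ox k = oy k' - oy k →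
    (dx k' - dx k - 100 * (ox k' - ox k)) % 108 = 0 →
    132 * ((dx k' - dx k - 100 * (ox k' - ox k)) / 108) - 64 * (ox k' - ox k) = dy k' - dy k →
    (k = k' ∨ (k = .P ∧ k' = .T) ∨ (k = .T ∧ k' = .P) ∨
      ((k = .Da ∨ k = .qa ∨ k = .Db ∨ k = .Dc ∨ k = .qc ∨ k = .Dd) ∧
        (dx k' - dx k - 100 * (ox k' - ox k)) / 108 = 1 ∨
        (k = .Da ∨ k = .qa ∨ k = .Db ∨ k = .Dc ∨ k = .qc ∨ k = .Dd) ∧
        (dx k' - dx k - 100 * (ox k' - ox k)) / 108 = -1)) := by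
  decide

lemma pos_inj (h : Ex m p k a b) (h' : Ex m p k' a' b')
    (hh : pos m (k, a, b) = pos m (k', a', b')) : k = k' ∧ a = a' ∧ b = b' := by
  have h1 := (fst_eq_iff h h').mp (congrArg Prod.fst hh)
  have h2 := (snd_eq_iff h h').mp (congrArg Prod.snd hh)
  unfold cX eX at h1
  unfold cY eY at h2
  obtain ⟨h1, h1'⟩ := h1
  obtain ⟨h2, h2'⟩ := h2
  have hu : (a : ℤ) - a' = ox k' - ox k := by linarith
  have hv : (108 : ℤ) * (b - b') = dx k' - dx k - 100 * (ox k' - ox k) := by rw [← hu]; linarith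
  have hdiv : (dx k' - dx k - 100 * (ox k' - ox k)) / 108 = (b : ℤ) - b' := by
    rw [← hv]; exact Int.mul_ediv_cancel_left _ (by norm_num)
  have key := offset_table k k' (by linarith) (by rw [← hv]; exact Int.mul_emod_right _ _) (by
    rw [hdiv, ← hu]; linarith)
  rw [hdiv] at key
  rcases key with rfl | ⟨rfl, rfl⟩ | ⟨rfl, rfl⟩ | ⟨h3, h4⟩ | ⟨h3, h4⟩
  · refine ⟨rfl, by omega, by omega⟩
  · exfalso
    simp only [dx, ox, Ex] at *
    obtain rfl : a = a' := by omega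
    obtain rfl : b = b' := by omega
    omega
  · exfalso
    simp only [dx, ox, Ex] at *
    obtain rfl : a = a' := by omega
    obtain rfl : b = b' := by omega
    omega
  · exfalso
    rcases h3 with rfl | rfl | rfl | rfl | rfl | rfl <;> cases k' <;>
      simp only [Ex, dx, ox, dy, oy] at * <;> omega
  · exfalso
    rcases h3 with rfl | rfl | rfl | rfl | rfl | rfl <;> cases k' <;>
      simp only [Ex, dx, ox, dy, oy] at * <;> omega

lemma mem_names {N : Kd × ℕ × ℕ} : N ∈ names m p ↔ Ex m p N.1 N.2.1 N.2.2 := by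
  unfold names
  rw [Finset.mem_filter]
  constructor
  · exact fun h => h.2
  · intro h
    refine ⟨?_, h⟩
    have := Ex_bd h
    simp only [Finset.mem_product, Finset.mem_univ, Finset.mem_range, true_and]
    omega

lemma mem_sel {t : Ty} {q : ℤ × ℤ} :
    q ∈ sel m p t ↔ ∃ k a b, Ex m p k a b ∧ ty k = t ∧ pos m (k, a, b) = q := by
  unfold sel
  rw [Finset.mem_image]
  constructor
  · rintro ⟨⟨k, a, b⟩, h, hq⟩
    rw [Finset.mem_filter, mem_names] at h
    exact ⟨k, a, b, h.1, h.2, hq⟩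
  · rintro ⟨k, a, b, h, ht, hq⟩
    exact ⟨(k, a, b), by rw [Finset.mem_filter, mem_names]; exact ⟨h, ht⟩, hq⟩

lemma pos_mem_sel {t : Ty} (h : Ex m p k a b) (ht : ty k = t) : pos m (k, a, b) ∈ sel m p t :=
  mem_sel.mpr ⟨k, a, b, h, ht, rfl⟩

/-- The type of a node is determined by its position. -/
lemma ty_of_mem_sel {t : Ty} (h : Ex m p k a b) (hm : pos m (k, a, b) ∈ sel m p t) : ty k = t := by
  obtain ⟨k', a', b', h', ht, hq⟩ := mem_sel.mp hm
  obtain ⟨rfl, rfl, rfl⟩ := pos_inj h' h hq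
  exact ht

lemma mem_nodes {q : ℤ × ℤ} :
    q ∈ (lay m p).nodes ↔ ∃ k a b, Ex m p k a b ∧ pos m (k, a, b) = q := by
  unfold Layout.nodes lay
  simp only [Finset.mem_union, mem_sel]
  constructor
  · rintro (((⟨k, a, b, h, -, hq⟩ | ⟨k, a, b, h, -, hq⟩) | ⟨k, a, b, h, -, hq⟩) | ⟨k, a, b, h, -, hq⟩) <;>
      exact ⟨k, a, b, h, hq⟩
  · rintro ⟨k, a, b, h, hq⟩
    rcases ht : ty k with _ | _ | _ | _
    · exact Or.inl (Or.inl (Or.inl ⟨k, a, b, h, ht, hq⟩))
    · exact Or.inl (Or.inl (Or.inr ⟨k, a, b, h, ht, hq⟩))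
    · exact Or.inl (Or.inr ⟨k, a, b, h, ht, hq⟩)
    · exact Or.inr ⟨k, a, b, h, ht, hq⟩

end Sat

end Pool.Agent.AreaTri
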