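import Pool.Agent.AreaTri.Sat.Pos

/-!
# Soundness of the SAT layout
-/

namespace Pool.Agent.AreaTri

namespace Sat

set_option linter.unusedSimpArgs false

variable {m : ℕ} {p : ℕ → ℕ → ℕ} {k k' : Kd} {a b a' b' : ℕ} {srv : ℤ × ℤ → ℤ × ℤ}

/-- The node serves an `H` node. -/
def RowH (m : ℕ) (p : ℕ → ℕ → ℕ) (srv : ℤ × ℤ → ℤ × ℤ) (N : Kd × ℕ × ℕ) : Prop :=
  srv (pos m N) ∈ sel m p .H

/-- The node serves a `V` node. -/
def ColV (m : ℕ) (p : ℕ → ℕ → ℕ) (srv : ℤ × ℤ → ℤ × ℤ) (N : Kd × ℕ × ℕ) : Prop :=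
  srv (pos m N) ∈ sel m p .V

lemma srv_spec (hs : (lay m p).Service srv) (h : Ex m p k a b) (ht : ty k = .R) :
    ∃ k' a' b', Ex m p k' a' b' ∧ srv (pos m (k, a, b)) = pos m (k', a', b') ∧
      ((ty k' = .H ∧ cY k' a' b' = cY k a b ∧ eY k' a' = eY k a) ∨
       (ty k' = .V ∧ cX k' a' b' = cX k a b ∧ eX k' a' = eX k a) ∨
       (ty k' = .T ∧ ((cX k' a' b' = cX k a b ∧ eX k' a' = eX k a) ∨
         (cY k' a' b' = cY k a b ∧ eY k' a' = eY k a)))) := by
  rcases hs.mem _ (pos_mem_sel h ht) with ⟨h1, h2⟩ | ⟨h1, h2⟩ | ⟨h1, h2⟩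
  · obtain ⟨k', a', b', h', ht', hq⟩ := mem_sel.mp h1
    refine ⟨k', a', b', h', hq.symm, Or.inl ⟨ht', ?_⟩⟩
    rw [← hq] at h2
    exact (snd_eq_iff h' h).mp h2
  · obtain ⟨k', a', b', h', ht', hq⟩ := mem_sel.mp h1
    refine ⟨k', a', b', h', hq.symm, Or.inr (Or.inl ⟨ht', ?_⟩)⟩
    rw [← hq] at h2
    exact (fst_eq_iff h' h).mp h2
  · obtain ⟨k', a', b', h', ht', hq⟩ := mem_sel.mp h1
    refine ⟨k', a', b', h', hq.symm, Or.inr (Or.inr ⟨ht', ?_⟩)⟩
    rw [← hq] at h2
    exact h2.imp (fst_eq_iff h' h).mp (snd_eq_iff h' h).mp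

lemma pos_injOn : Set.InjOn (pos m) {N | Ex m p N.1 N.2.1 N.2.2} := by
  rintro ⟨k, a, b⟩ h ⟨k', a', b'⟩ h' hh
  obtain ⟨rfl, rfl, rfl⟩ := pos_inj (m := m) (p := p) h h' hh
  rfl

/-- Capacity bound for rows. -/
lemma cap_row (hs : (lay m p).Service srv) (cy ey : ℤ) (l L : List (Kd × ℕ × ℕ)) (hl : l.Nodup)
    (h1 : ∀ N ∈ l, Ex m p N.1 N.2.1 N.2.2 ∧ ty N.1 = .R ∧ cY N.1 N.2.1 N.2.2 = cy ∧
      eY N.1 N.2.1 = ey ∧ RowH m p srv N)
    (h2 : ∀ k a b, Ex m p k a b → ty k = .H → cY k a b = cy → eY k a = ey → (k, a, b) ∈ L)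
    (h0 : 0 ≤ ey ∧ ey < KK m) :
    l.length ≤ L.length := by
  classical
  set y : ℤ := KK m * cy + ey + bound m with hy
  have hsub1 : (l.map (pos m)).toFinset ⊆
      (lay m p).R.filter (fun r => srv r ∈ (lay m p).H ∧ r.2 = y) := by
    intro q hq
    rw [List.mem_toFinset, List.mem_map] at hq
    obtain ⟨⟨k, a, b⟩, hN, rfl⟩ := hq
    obtain ⟨hE, ht, hc, he, hr⟩ := h1 _ hN
    rw [Finset.mem_filter]
    refine ⟨pos_mem_sel hE ht, hr, ?_⟩
    simp only at hc he
    simp only [pos, hy, hc, he]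
  have hsub2 : (lay m p).H.filter (fun h => h.2 = y) ⊆ (L.map (pos m)).toFinset := by
    intro q hq
    rw [Finset.mem_filter] at hq
    obtain ⟨k, a, b, hE, ht, rfl⟩ := mem_sel.mp hq.1
    rw [List.mem_toFinset, List.mem_map]
    refine ⟨(k, a, b), ?_, rfl⟩
    have h3 : KK m * cY k a b + eY k a = KK m * cy + ey := by
      have := hq.2
      simp only [pos, hy] at this
      linarith
    obtain ⟨h4, h5⟩ := (lex_eq_iff (KK_pos m) (eY_nonneg hE) h0.1 (eY_lt hE) h0.2).mp h3
    exact h2 k a b hE ht h4 h5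
  have hc1 : (l.map (pos m)).toFinset.card = l.length := by
    rw [List.toFinset_card_of_nodup, List.length_map]
    refine (List.nodup_map_iff_inj_on hl).mpr fun N hN N' hN' hh => ?_
    exact pos_injOn (m := m) (p := p) (h1 N hN).1 (h1 N' hN').1 hh
  calc l.length = (l.map (pos m)).toFinset.card := hc1.symm
    _ ≤ _ := Finset.card_le_card hsub1
    _ ≤ _ := hs.capH y
    _ ≤ _ := Finset.card_le_card hsub2
    _ ≤ (L.map (pos m)).length := List.toFinset_card_le _
    _ = L.length := List.length_map _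

/-- Capacity bound for columns. -/
lemma cap_col (hs : (lay m p).Service srv) (cx ex : ℤ) (l L : List (Kd × ℕ × ℕ)) (hl : l.Nodup)
    (h1 : ∀ N ∈ l, Ex m p N.1 N.2.1 N.2.2 ∧ ty N.1 = .R ∧ cX N.1 N.2.1 N.2.2 = cx ∧
      eX N.1 N.2.1 = ex ∧ ColV m p srv N)
    (h2 : ∀ k a b, Ex m p k a b → ty k = .V → cX k a b = cx → eX k a = ex → (k, a, b) ∈ L)
    (h0 : 0 ≤ ex ∧ ex < KK m) :
    l.length ≤ L.length := by
  classical
  set x : ℤ := KK m * cx + ex + bound m with hx
  have hsub1 : (l.map (pos m)).toFinset ⊆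
      (lay m p).R.filter (fun r => srv r ∈ (lay m p).V ∧ r.1 = x) := by
    intro q hq
    rw [List.mem_toFinset, List.mem_map] at hq
    obtain ⟨⟨k, a, b⟩, hN, rfl⟩ := hq
    obtain ⟨hE, ht, hc, he, hr⟩ := h1 _ hN
    rw [Finset.mem_filter]
    refine ⟨pos_mem_sel hE ht, hr, ?_⟩
    simp only at hc he
    simp only [pos, hx, hc, he]
  have hsub2 : (lay m p).V.filter (fun h => h.1 = x) ⊆ (L.map (pos m)).toFinset := by
    intro q hq
    rw [Finset.mem_filter] at hq
    obtain ⟨k, a, b, hE, ht, rfl⟩ := mem_sel.mp hq.1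
    rw [List.mem_toFinset, List.mem_map]
    refine ⟨(k, a, b), ?_, rfl⟩
    have h3 : KK m * cX k a b + eX k a = KK m * cx + ex := by
      have := hq.2
      simp only [pos, hx] at this
      linarith
    obtain ⟨h4, h5⟩ := (lex_eq_iff (KK_pos m) (eX_nonneg hE) h0.1 (eX_lt hE) h0.2).mp h3
    exact h2 k a b hE ht h4 h5
  have hc1 : (l.map (pos m)).toFinset.card = l.length := by
    rw [List.toFinset_card_of_nodup, List.length_map]
    refine (List.nodup_map_iff_inj_on hl).mpr fun N hN N' hN' hh => ?_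
    exact pos_injOn (m := m) (p := p) (h1 N hN).1 (h1 N' hN').1 hh
  calc l.length = (l.map (pos m)).toFinset.card := hc1.symm
    _ ≤ _ := Finset.card_le_card hsub1
    _ ≤ _ := hs.capV x
    _ ≤ _ := Finset.card_le_card hsub2
    _ ≤ (L.map (pos m)).length := List.toFinset_card_le _
    _ = L.length := List.length_map _

/-! ### Which blue nodes a red node can serve -/

lemma rowH_of (h' : Ex m p k' a' b') (ht : ty k' = .H) {N : Kd × ℕ × ℕ}
    (hq : srv (pos m N) = pos m (k', a', b')) : RowH m p srv N := by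
  unfold RowH
  rw [hq]; exact pos_mem_sel h' ht

lemma colV_of (h' : Ex m p k' a' b') (ht : ty k' = .V) {N : Kd × ℕ × ℕ}
    (hq : srv (pos m N) = pos m (k', a', b')) : ColV m p srv N := by
  unfold ColV
  rw [hq]; exact pos_mem_sel h' ht

lemma srv_r1 (hs : (lay m p).Service srv) (h : Ex m p .r1 a b) :
    RowH m p srv (.r1, a, b) ∨
    ∃ k' a' b', Ex m p k' a' b' ∧ srv (pos m (.r1, a, b)) = pos m (k', a', b') ∧
      ((a' + 1 = a ∧ b' = b ∧ (k' = .P ∨ k' = .T)) ∨
       (a = 1 ∧ b % 3 = 1 ∧ k' = .Da ∧ a' = 1 ∧ b' = b) ∨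
       (a = 1 ∧ b % 3 = 2 ∧ k' = .Dc ∧ a' = 1 ∧ b' + 1 = b)) := by
  obtain ⟨k', a', b', h', hq, hc⟩ := srv_spec hs h rfl
  by_cases ht : ty k' = .H
  · exact Or.inl (rowH_of h' ht hq)
  right
  refine ⟨k', a', b', h', hq, ?_⟩
  cases k' <;> first
    | (exfalso; exact ht rfl)
    | (simp only [Ex, cX, cY, eX, eY, dx, dy, ox, oy, ty, reduceCtorEq, false_and, true_and,
        and_true, or_false, false_or, and_false] at h h' hc ⊢ <;> omega)

lemma srv_x (hs : (lay m p).Service srv) (h : Ex m p .x a b) :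
    RowH m p srv (.x, a, b) ∨
    (p a b = 1 ∧ srv (pos m (.x, a, b)) = pos m (.P, a, b)) ∨
    (p a b = 0 ∧ srv (pos m (.x, a, b)) = pos m (.T, a, b)) := by
  obtain ⟨k', a', b', h', hq, hc⟩ := srv_spec hs h rfl
  by_cases ht : ty k' = .H
  · exact Or.inl (rowH_of h' ht hq)
  right
  cases k' <;> first
    | (exfalso; exact ht rfl)
    | (exfalso
       simp only [Ex, cX, cY, eX, eY, dx, dy, ox, oy, ty, reduceCtorEq, false_and, true_and,
         and_true, or_false, false_or, and_false] at h h' hc <;> omega)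
    | (simp only [Ex, cX, cY, eX, eY, dx, dy, ox, oy, ty, reduceCtorEq, false_and, true_and,
         and_true, or_false, false_or, and_false] at h h' hc
       obtain rfl : a' = a := by omega
       obtain rfl : b' = b := by omega
       first
         | exact Or.inl ⟨h'.2.2.2, hq⟩
         | exact Or.inr ⟨h'.2.2.2, hq⟩)

lemma srv_ya (hs : (lay m p).Service srv) (h : Ex m p .ya a b) :
    RowH m p srv (.ya, a, b) ∨ ColV m p srv (.ya, a, b) := by
  obtain ⟨k', a', b', h', hq, hc⟩ := srv_spec hs h rfl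
  rcases ht : ty k' with _ | _ | _ | _
  · rw [ht] at hc; simp at hc
  · exact Or.inl (rowH_of h' ht hq)
  · exact Or.inr (colV_of h' ht hq)
  · exfalso
    cases k' <;> first
    | (simp [ty] at ht; done)
    | (simp only [Ex, cX, cY, eX, eY, dx, dy, ox, oy, ty, reduceCtorEq, false_and, true_and,
         and_true, or_false, false_or, and_false] at h h' hc <;> omega)

lemma srv_y (hs : (lay m p).Service srv) (h : Ex m p .y a b) :
    ColV m p srv (.y, a, b) ∨ srv (pos m (.y, a, b)) = pos m (.T, a, b) := by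
  obtain ⟨k', a', b', h', hq, hc⟩ := srv_spec hs h rfl
  by_cases ht : ty k' = .V
  · exact Or.inl (colV_of h' ht hq)
  right
  cases k' <;> first
    | (exfalso; exact ht rfl)
    | (exfalso
       simp only [Ex, cX, cY, eX, eY, dx, dy, ox, oy, ty, reduceCtorEq, false_and, true_and,
         and_true, or_false, false_or, and_false] at h h' hc <;> omega)
    | (simp only [Ex, cX, cY, eX, eY, dx, dy, ox, oy, ty, reduceCtorEq, false_and, true_and,
         and_true, or_false, false_or, and_false] at h h' hc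
       obtain rfl : a' = a := by omega
       obtain rfl : b' = b := by omega
       exact hq)

lemma srv_rowcol (hs : (lay m p).Service srv) (hk : k = .rd ∨ k = .rh ∨ k = .qa ∨ k = .qc)
    (h : Ex m p k a b) : RowH m p srv (k, a, b) ∨ ColV m p srv (k, a, b) := by
  have hR : ty k = .R := by rcases hk with rfl | rfl | rfl | rfl <;> rfl
  obtain ⟨k', a', b', h', hq, hc⟩ := srv_spec hs h hR
  rcases ht : ty k' with _ | _ | _ | _
  · rw [ht] at hc; simp at hc
  · exact Or.inl (rowH_of h' ht hq)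
  · exact Or.inr (colV_of h' ht hq)
  · exfalso
    rcases hk with rfl | rfl | rfl | rfl <;> cases k' <;> first
    | (simp [ty] at ht; done)
    | (simp only [Ex, cX, cY, eX, eY, dx, dy, ox, oy, ty, reduceCtorEq, false_and, true_and,
         and_true, or_false, false_or, and_false] at h h' hc <;> omega)

lemma srv_m1 (hs : (lay m p).Service srv) (h : Ex m p .m1 a b) : ColV m p srv (.m1, a, b) := by
  obtain ⟨k', a', b', h', hq, hc⟩ := srv_spec hs h rfl
  by_cases ht : ty k' = .V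
  · exact colV_of h' ht hq
  exfalso
  cases k' <;> first
    | (exfalso; exact ht rfl)
    | (simp only [Ex, cX, cY, eX, eY, dx, dy, ox, oy, ty, reduceCtorEq, false_and, true_and,
         and_true, or_false, false_or, and_false] at h h' hc <;> omega)

lemma srv_g2 (hs : (lay m p).Service srv) (h : Ex m p .g2 a b) (hb : b ≤ 3 * m) :
    (RowH m p srv (.g2, a, b) ∧ ((p a b = 1 ∧ srv (pos m (.g2, a, b)) = pos m (.bp, a, b)) ∨
      (p a b = 0 ∧ srv (pos m (.g2, a, b)) = pos m (.bg, a, b)))) ∨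
    ColV m p srv (.g2, a, b) := by
  obtain ⟨k', a', b', h', hq, hc⟩ := srv_spec hs h rfl
  rcases ht : ty k' with _ | _ | _ | _
  · rw [ht] at hc; simp at hc
  · refine Or.inl ⟨rowH_of h' ht hq, ?_⟩
    cases k' <;> first
    | (simp [ty] at ht; done)
    | (exfalso
       simp only [Ex, cX, cY, eX, eY, dx, dy, ox, oy, ty, reduceCtorEq, false_and, true_and,
         and_true, or_false, false_or, and_false] at h h' hc <;> omega)
    | (simp only [Ex, cX, cY, eX, eY, dx, dy, ox, oy, ty, reduceCtorEq, false_and, true_and,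
         and_true, or_false, false_or, and_false] at h h' hc
       obtain rfl : a' = a := by omega
       obtain rfl : b' = b := by omega
       first
         | exact Or.inl ⟨h'.2.2.2, hq⟩
         | exact Or.inr ⟨h'.2.2.2, hq⟩)
  · exact Or.inr (colV_of h' ht hq)
  · exfalso
    cases k' <;> first
    | (simp [ty] at ht; done)
    | (simp only [Ex, cX, cY, eX, eY, dx, dy, ox, oy, ty, reduceCtorEq, false_and, true_and,
         and_true, or_false, false_or, and_false] at h h' hc <;> omega)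


end Sat

end Pool.Agent.AreaTri
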