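import Pool.Agent.AreaTri.Sat.Sound1

/-!
# Soundness of the SAT layout: blue nodes on a line
-/

namespace Pool.Agent.AreaTri

namespace Sat

set_option linter.unusedSimpArgs false

variable {m : ℕ} {p : ℕ → ℕ → ℕ} {k k' : Kd} {a b a' b' : ℕ} {srv : ℤ × ℤ → ℤ × ℤ}

/-! ### Which blue nodes lie on a line -/

lemma colV_C1 (hb : b < 3 * m) (h : Ex m p k' a' b') (ht : ty k' = .V)
    (h1 : cX k' a' b' = 100 * a + 108 * b + 116) (h2 : eX k' a' = a) :
    (k', a', b') ∈ [(Kd.bh2, a, b), (Kd.d1, a, b)] := by
  cases k' <;>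
  first
    | (exfalso; simp [ty] at ht; done)
    | (exfalso
       simp only [Ex, cX, cY, eX, eY, dx, dy, ox, oy] at h h1 h2
       omega)
    | (simp only [Ex, cX, cY, eX, eY, dx, dy, ox, oy] at h h1 h2
       simp only [List.mem_cons, Prod.mk.injEq, reduceCtorEq, false_and, true_and, false_or,
         or_false, List.not_mem_nil]
       omega)

lemma colV_P (ha : 1 ≤ a) (h : Ex m p k' a' b') (ht : ty k' = .V)
    (h1 : cX k' a' b' = 100 * a + 108 * b + 100) (h2 : eX k' a' = a) :
    (k', a', b') ∈ [(Kd.P, a, b)] := by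
  cases k' <;>
  first
    | (exfalso; simp [ty] at ht; done)
    | (exfalso
       simp only [Ex, cX, cY, eX, eY, dx, dy, ox, oy] at h h1 h2
       omega)
    | (simp only [Ex, cX, cY, eX, eY, dx, dy, ox, oy] at h h1 h2
       simp only [List.mem_cons, Prod.mk.injEq, reduceCtorEq, false_and, true_and, false_or,
         or_false, List.not_mem_nil]
       omega)

lemma colV_pb (h : Ex m p k' a' b') (ht : ty k' = .V)
    (h1 : cX k' a' b' = 100 * a + 108 * b + 140) (h2 : eX k' a' = a) :
    (k', a', b') ∈ [(Kd.pb, a, b)] := by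
  cases k' <;>
  first
    | (exfalso; simp [ty] at ht; done)
    | (exfalso
       simp only [Ex, cX, cY, eX, eY, dx, dy, ox, oy] at h h1 h2
       omega)
    | (simp only [Ex, cX, cY, eX, eY, dx, dy, ox, oy] at h h1 h2
       simp only [List.mem_cons, Prod.mk.injEq, reduceCtorEq, false_and, true_and, false_or,
         or_false, List.not_mem_nil]
       omega)

lemma colV_Da (hb : b % 3 = 1) (h : Ex m p k' a' b') (ht : ty k' = .V)
    (h1 : cX k' a' b' = 100 + 108 * b) (h2 : eX k' a' = 0) :
    (k', a', b') ∈ [(Kd.Da, 1, b)] := by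
  cases k' <;>
  first
    | (exfalso; simp [ty] at ht; done)
    | (exfalso
       simp only [Ex, cX, cY, eX, eY, dx, dy, ox, oy] at h h1 h2
       omega)
    | (simp only [Ex, cX, cY, eX, eY, dx, dy, ox, oy] at h h1 h2
       simp only [List.mem_cons, Prod.mk.injEq, reduceCtorEq, false_and, true_and, false_or,
         or_false, List.not_mem_nil]
       omega)

lemma colV_Dc (hb : b % 3 = 1) (h : Ex m p k' a' b') (ht : ty k' = .V)
    (h1 : cX k' a' b' = 100 + 108 * (b + 1)) (h2 : eX k' a' = 0) :
    (k', a', b') ∈ [(Kd.Dc, 1, b)] := by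
  cases k' <;>
  first
    | (exfalso; simp [ty] at ht; done)
    | (exfalso
       simp only [Ex, cX, cY, eX, eY, dx, dy, ox, oy] at h h1 h2
       omega)
    | (simp only [Ex, cX, cY, eX, eY, dx, dy, ox, oy] at h h1 h2
       simp only [List.mem_cons, Prod.mk.injEq, reduceCtorEq, false_and, true_and, false_or,
         or_false, List.not_mem_nil]
       omega)

lemma rowH_C (hp : ∀ a b, p a b = 0 ∨ p a b = 1) (hb : b ≤ 3 * m) (h : Ex m p k' a' b')
    (ht : ty k' = .H)
    (h1 : cY k' a' b' = -64 * a + 132 * b + 44) (h2 : eY k' a' = a) :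
    (k', a', b') ∈ [if p a b = 1 then (Kd.bp, a, b) else (Kd.bg, a, b)] := by
  have hpab := hp a b
  cases k' <;> first
    | (exfalso; simp [ty] at ht; done)
    | (exfalso
       simp only [Ex, cX, cY, eX, eY, dx, dy, ox, oy] at h h1 h2 <;> omega)
    | (simp only [Ex, cX, cY, eX, eY, dx, dy, ox, oy] at h h1 h2
       obtain rfl : a' = a := by omega
       obtain rfl : b' = b := by omega
       rw [List.mem_singleton]
       split_ifs <;> first | rfl | (exfalso; omega))


end Sat

end Pool.Agent.AreaTri
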