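import Pool.Agent.AreaTri.Sat.Sound2

/-!
# Soundness of the SAT layout: the rows of the cells
-/

namespace Pool.Agent.AreaTri

namespace Sat

set_option linter.unusedSimpArgs false

variable {m : ℕ} {p : ℕ → ℕ → ℕ} {k k' : Kd} {a b a' b' : ℕ} {srv : ℤ × ℤ → ℤ × ℤ}

/-- The red nodes of the row of the cell `(a, b)` after `r1`. -/
def later (p : ℕ → ℕ → ℕ) (a b : ℕ) : List (Kd × ℕ × ℕ) :=
  if a = b then [(.rd, a, b)] else if p a b = 1 then [(.x, a, b)] else [(.x, a, b), (.ya, a, b)]

/-- The blue nodes of the row of the cell `(a, b)` after `r1`. -/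
def laterH (p : ℕ → ℕ → ℕ) (a b : ℕ) : List (Kd × ℕ × ℕ) :=
  if a = b then [(.bd, a, b)] else if p a b = 1 then [(.b0, a, b)] else [(.b0, a, b), (.pa, a, b)]

lemma later_length : (later p a b).length = (laterH p a b).length := by
  unfold later laterH
  split_ifs <;> rfl

lemma later_nodup : (later p a b).Nodup := by
  unfold later
  split_ifs <;> simp

lemma later_spec (hp : ∀ a b, p a b = 0 ∨ p a b = 1) (h : Ex m p .r1 a b) :
    ∀ N ∈ later p a b, Ex m p N.1 N.2.1 N.2.2 ∧ ty N.1 = .R ∧
      cY N.1 N.2.1 N.2.2 = -64 * a + 132 * b + 56 ∧ eY N.1 N.2.1 = a ∧ N.1 ≠ .r1 ∧ N.1 ≠ .qa ∧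
      N.1 ≠ .qc := by
  have hpab := hp a b
  simp only [Ex] at h
  intro N hN
  unfold later at hN
  split_ifs at hN with h1 h2
  · simp only [List.mem_singleton] at hN
    subst hN
    exact ⟨by simp only [Ex]; omega, rfl, by simp only [cY, dy], by simp only [eY, oy]; ring,
      by simp, by simp, by simp⟩
  · simp only [List.mem_singleton] at hN
    subst hN
    exact ⟨by simp only [Ex]; omega, rfl, by simp only [cY, dy], by simp only [eY, oy]; ring,
      by simp, by simp, by simp⟩
  · simp only [List.mem_cons, List.not_mem_nil, or_false] at hN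
    rcases hN with rfl | rfl
    · exact ⟨by simp only [Ex]; omega, rfl, by simp only [cY, dy], by simp only [eY, oy]; ring,
        by simp, by simp, by simp⟩
    · exact ⟨by simp only [Ex]; omega, rfl, by simp only [cY, dy], by simp only [eY, oy]; ring,
        by simp, by simp, by simp⟩

lemma rowH_B (hp : ∀ a b, p a b = 0 ∨ p a b = 1) (h : Ex m p k' a' b') (ht : ty k' = .H)
    (h1 : cY k' a' b' = -64 * a + 132 * b + 56) (h2 : eY k' a' = a) :
    (k', a', b') ∈ laterH p a b ∨ (a = 1 ∧ b % 3 = 2 ∧ (k', a', b') = (Kd.Db, 1, b - 1)) ∨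
      (a = 1 ∧ b % 3 = 0 ∧ (k', a', b') = (Kd.Dd, 1, b - 2)) := by
  have hpab := hp a b
  cases k' <;> first
    | (exfalso; simp [ty] at ht; done)
    | (exfalso
       simp only [Ex, cX, cY, eX, eY, dx, dy, ox, oy] at h h1 h2 <;> omega)
    | (simp only [Ex, cX, cY, eX, eY, dx, dy, ox, oy] at h h1 h2
       have e1 : a' = a := by omega
       have e2 : b' = b := by omega
       subst e1 e2
       left
       unfold laterH
       split_ifs <;> first
         | (exfalso; omega)
         | simp)
    | (simp only [Ex, cX, cY, eX, eY, dx, dy, ox, oy] at h h1 h2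
       right; left
       refine ⟨by omega, by omega, ?_⟩
       simp only [Prod.mk.injEq, true_and]
       omega)
    | (simp only [Ex, cX, cY, eX, eY, dx, dy, ox, oy] at h h1 h2
       right; right
       refine ⟨by omega, by omega, ?_⟩
       simp only [Prod.mk.injEq, true_and]
       omega)

/-- The wire `b` is on at `(a, b)`. -/
def On (m : ℕ) (p : ℕ → ℕ → ℕ) (srv : ℤ × ℤ → ℤ × ℤ) (a b : ℕ) : Prop :=
  ¬ ∀ N ∈ later p a b, RowH m p srv N

lemma ey_bd (ha : a ≤ 3 * m) : (0 : ℤ) ≤ a ∧ (a : ℤ) < KK m := by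
  unfold KK
  omega

/-- If `r1(a,b)` serves its row, then the wire is on. -/
lemma on_of_rowH (hp : ∀ a b, p a b = 0 ∨ p a b = 1) (hs : (lay m p).Service srv)
    (h : Ex m p .r1 a b) (hab : a ≠ 1 ∨ b % 3 = 1) (hr : RowH m p srv (.r1, a, b)) :
    On m p srv a b := by
  intro hall
  have h' := h
  simp only [Ex] at h'
  have key := cap_row hs (-64 * a + 132 * b + 56) a ((.r1, a, b) :: later p a b) (laterH p a b)
    (List.nodup_cons.mpr ⟨fun hm => (later_spec hp h _ hm).2.2.2.2.1 rfl, later_nodup⟩)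
    (by
      intro N hN
      rcases List.mem_cons.mp hN with rfl | hN
      · exact ⟨h, rfl, by simp only [cY, dy], by simp only [eY, oy]; ring, hr⟩
      · have := later_spec hp h N hN
        exact ⟨this.1, this.2.1, this.2.2.1, this.2.2.2.1, hall N hN⟩)
    (by
      intro k' a' b' h1 ht h2 h3
      rcases rowH_B hp h1 ht h2 h3 with h4 | ⟨h4, h5, -⟩ | ⟨h4, h5, -⟩
      · exact h4
      · omega
      · omega)
    (ey_bd (by omega))
  rw [List.length_cons, later_length] at key
  omega


end Sat

end Pool.Agent.AreaTri
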