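import Pool.Agent.AreaTri.Sat.Sound3

/-!
# Soundness of the SAT layout: wires
-/

namespace Pool.Agent.AreaTri

namespace Sat

set_option linter.unusedSimpArgs false

variable {m : ℕ} {p : ℕ → ℕ → ℕ} {k k' : Kd} {a b a' b' : ℕ} {srv : ℤ × ℤ → ℤ × ℤ}

/-- The wire stays on along its vertical part. -/
lemma on_succ (hp : ∀ a b, p a b = 0 ∨ p a b = 1) (hs : (lay m p).Service srv)
    (ha : 1 ≤ a) (hab : a < b) (hb : b ≤ 3 * m) (hon : On m p srv a b) :
    On m p srv (a + 1) b := by
  have hr1 : Ex m p .r1 (a + 1) b := by simp only [Ex]; omega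
  apply on_of_rowH hp hs hr1 (Or.inl (by omega))
  have hx : Ex m p .x a b := by simp only [Ex]; omega
  rcases srv_r1 hs hr1 with hrow | ⟨k', a', b', h', hq, hc⟩
  · exact hrow
  exfalso
  have hk' : a' = a ∧ b' = b ∧ (k' = .P ∨ k' = .T) := by
    rcases hc with ⟨h1, h2, h3⟩ | ⟨h1, -⟩ | ⟨h1, -⟩
    · exact ⟨by omega, h2, h3⟩
    · omega
    · omega
  obtain ⟨rfl, rfl, hk⟩ := hk'
  rcases hk with rfl | rfl
  · -- plain crossing
    have hpab : p a' b' = 1 := h'.2.2.2
    have hl : later p a' b' = [(.x, a', b')] := by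
      unfold later
      rw [if_neg (by omega), if_pos hpab]
    have hxrow : ¬ RowH m p srv (.x, a', b') := by
      intro hr
      apply hon
      rw [hl]
      intro N hN
      rw [List.mem_singleton] at hN
      rw [hN]; exact hr
    have hxP : srv (pos m (.x, a', b')) = pos m (.P, a', b') := by
      rcases srv_x hs hx with h1 | ⟨-, h1⟩ | ⟨h1, -⟩
      · exact absurd h1 hxrow
      · exact h1
      · omega
    have key := cap_col hs (100 * a' + 108 * b' + 100) a' [(.r1, a' + 1, b'), (.x, a', b')]
      [(.P, a', b')] (by simp)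
      (by
        intro N hN
        simp only [List.mem_cons, List.not_mem_nil, or_false] at hN
        rcases hN with rfl | rfl
        · exact ⟨hr1, rfl, by simp only [cX, dx]; push_cast; ring, by simp only [eX, ox]; push_cast; ring,
            colV_of h' rfl hq⟩
        · exact ⟨hx, rfl, by simp only [cX, dx], by simp only [eX, ox]; ring, colV_of h' rfl hxP⟩)
      (fun k'' a'' b'' h1 ht h2 h3 => colV_P ha h1 ht h2 h3)
      (ey_bd (by omega))
    simp at key
  · -- gadget
    have hpab : p a' b' = 0 := h'.2.2.2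
    have hl : later p a' b' = [(.x, a', b'), (.ya, a', b')] := by
      unfold later
      rw [if_neg (by omega), if_neg (by omega)]
    have hTmem : pos m (.T, a', b') ∈ (lay m p).T := pos_mem_sel h' rfl
    have hposne : ∀ {k a b k' a' b'}, Ex m p k a b → Ex m p k' a' b' → k ≠ k' →
        pos m (k, a, b) ≠ pos m (k', a', b') := fun h1 h2 hne he => hne (pos_inj h1 h2 he).1
    have hxrow : RowH m p srv (.x, a', b') := by
      rcases srv_x hs hx with h1 | ⟨h1, -⟩ | ⟨-, h1⟩
      · exact h1
      · omega
      · exfalso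
        have := hs.capT _ (pos_mem_sel hr1 rfl) _ (pos_mem_sel hx rfl) (by rw [hq]; exact hTmem)
          (by rw [hq, h1])
        exact hposne hr1 hx (by simp) this
    have hy : Ex m p .y a' b' := by simp only [Ex]; omega
    have hya : Ex m p .ya a' b' := by simp only [Ex]; omega
    have hycol : ColV m p srv (.y, a', b') := by
      rcases srv_y hs hy with h1 | h1
      · exact h1
      · exfalso
        have := hs.capT _ (pos_mem_sel hr1 rfl) _ (pos_mem_sel hy rfl) (by rw [hq]; exact hTmem)
          (by rw [hq, h1])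
        exact hposne hr1 hy (by simp) this
    have hyarow : RowH m p srv (.ya, a', b') := by
      rcases srv_ya hs hya with h1 | h1
      · exact h1
      · exfalso
        have key := cap_col hs (100 * a' + 108 * b' + 140) a' [(.y, a', b'), (.ya, a', b')]
          [(.pb, a', b')] (by simp)
          (by
            intro N hN
            simp only [List.mem_cons, List.not_mem_nil, or_false] at hN
            rcases hN with rfl | rfl
            · exact ⟨hy, rfl, by simp only [cX, dx], by simp only [eX, ox]; ring, hycol⟩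
            · exact ⟨hya, rfl, by simp only [cX, dx], by simp only [eX, ox]; ring, h1⟩)
          (fun k'' a'' b'' h1 ht h2 h3 => colV_pb h1 ht h2 h3)
          (ey_bd (by omega))
        simp at key
    apply hon
    rw [hl]
    intro N hN
    simp only [List.mem_cons, List.not_mem_nil, or_false] at hN
    rcases hN with rfl | rfl
    · exact hxrow
    · exact hyarow

lemma on_all (hp : ∀ a b, p a b = 0 ∨ p a b = 1) (hs : (lay m p).Service srv)
    (hb : b ≤ 3 * m) (hon : On m p srv 1 b) : ∀ a, 1 ≤ a → a ≤ b → On m p srv a b := by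
  intro a ha
  induction a, ha using Nat.le_induction with
  | base => intro _; exact hon
  | succ a ha ih =>
    intro hab
    exact on_succ hp hs ha (by omega) hb (ih (by omega))

/-- Start of the horizontal part. -/
lemma g2_start (hs : (lay m p).Service srv) (ha : 1 ≤ a) (hb : a < 3 * m)
    (hon : On m p srv a a) : RowH m p srv (.g2, a, a + 1) := by
  have hrd : Ex m p .rd a a := ⟨ha, rfl, hb.le⟩
  have hm1 : Ex m p .m1 a a := by simp only [Ex]; omega
  have hg2 : Ex m p .g2 a (a + 1) := by simp only [Ex]; omega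
  have hrdcol : ColV m p srv (.rd, a, a) := by
    rcases srv_rowcol hs (Or.inl rfl) hrd with h1 | h1
    · exfalso
      apply hon
      intro N hN
      unfold later at hN
      rw [if_pos rfl, List.mem_singleton] at hN
      rw [hN]; exact h1
    · exact h1
  have hm1col := srv_m1 hs hm1
  rcases srv_g2 hs hg2 (by omega) with ⟨h1, -⟩ | h1
  · exact h1
  exfalso
  have key := cap_col hs (100 * a + 108 * a + 116) a [(.rd, a, a), (.m1, a, a), (.g2, a, a + 1)]
    [(.bh2, a, a), (.d1, a, a)] (by simp)
    (by
      intro N hN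
      simp only [List.mem_cons, List.not_mem_nil, or_false] at hN
      rcases hN with rfl | rfl | rfl
      · exact ⟨hrd, rfl, by simp only [cX, dx], by simp only [eX, ox]; ring, hrdcol⟩
      · exact ⟨hm1, rfl, by simp only [cX, dx], by simp only [eX, ox]; ring, hm1col⟩
      · exact ⟨hg2, rfl, by simp only [cX, dx]; push_cast; ring, by simp only [eX, ox]; ring, h1⟩)
    (fun k'' a'' b'' h1 ht h2 h3 => colV_C1 (by omega) h1 ht h2 h3)
    (ey_bd (by omega))
  simp at key

/-- The wire stays on along its horizontal part. -/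
lemma g2_succ (hp : ∀ a b, p a b = 0 ∨ p a b = 1) (hs : (lay m p).Service srv) (ha : 1 ≤ a)
    (hab : a < b) (hb : b < 3 * m) (hr : RowH m p srv (.g2, a, b)) :
    RowH m p srv (.g2, a, b + 1) := by
  have hrh : Ex m p .rh a b := by simp only [Ex]; omega
  have hm1 : Ex m p .m1 a b := by simp only [Ex]; omega
  have hg : Ex m p .g2 a b := by simp only [Ex]; omega
  have hg2 : Ex m p .g2 a (b + 1) := by simp only [Ex]; omega
  have hrhcol : ColV m p srv (.rh, a, b) := by
    rcases srv_rowcol hs (Or.inr (Or.inl rfl)) hrh with h1 | h1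
    · exfalso
      have key := cap_row hs (-64 * a + 132 * b + 44) a [(.g2, a, b), (.rh, a, b)]
        [if p a b = 1 then (Kd.bp, a, b) else (Kd.bg, a, b)] (by simp)
        (by
          intro N hN
          simp only [List.mem_cons, List.not_mem_nil, or_false] at hN
          rcases hN with rfl | rfl
          · exact ⟨hg, rfl, by simp only [cY, dy], by simp only [eY, oy]; ring, hr⟩
          · exact ⟨hrh, rfl, by simp only [cY, dy], by simp only [eY, oy]; ring, h1⟩)
        (fun k'' a'' b'' h1 ht h2 h3 => rowH_C hp (by omega) h1 ht h2 h3)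
        (ey_bd (by omega))
      simp at key
    · exact h1
  have hm1col := srv_m1 hs hm1
  rcases srv_g2 hs hg2 (by omega) with ⟨h1, -⟩ | h1
  · exact h1
  exfalso
  have key := cap_col hs (100 * a + 108 * b + 116) a [(.rh, a, b), (.m1, a, b), (.g2, a, b + 1)]
    [(.bh2, a, b), (.d1, a, b)] (by simp)
    (by
      intro N hN
      simp only [List.mem_cons, List.not_mem_nil, or_false] at hN
      rcases hN with rfl | rfl | rfl
      · exact ⟨hrh, rfl, by simp only [cX, dx], by simp only [eX, ox]; ring, hrhcol⟩
      · exact ⟨hm1, rfl, by simp only [cX, dx], by simp only [eX, ox]; ring, hm1col⟩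
      · exact ⟨hg2, rfl, by simp only [cX, dx]; push_cast; ring, by simp only [eX, ox]; ring, h1⟩)
    (fun k'' a'' b'' h1 ht h2 h3 => colV_C1 (by omega) h1 ht h2 h3)
    (ey_bd (by omega))
  simp at key

lemma g2_all (hp : ∀ a b, p a b = 0 ∨ p a b = 1) (hs : (lay m p).Service srv) (ha : 1 ≤ a)
    (hon : On m p srv a a) : ∀ b, a + 1 ≤ b → b ≤ 3 * m → RowH m p srv (.g2, a, b) := by
  intro b hb
  induction b, hb using Nat.le_induction with
  | base => intro h; exact g2_start hs ha (by omega) hon
  | succ b hb ih =>
    intro h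
    exact g2_succ hp hs ha (by omega) (by omega) (ih (by omega))

/-- Two wires which are on meet in a gadget. -/
lemma not_plain (hp : ∀ a b, p a b = 0 ∨ p a b = 1) (hs : (lay m p).Service srv) (ha : 1 ≤ a)
    (hab : a < b) (hb : b ≤ 3 * m) (hona : On m p srv 1 a) (honb : On m p srv 1 b) :
    p a b = 0 := by
  rcases hp a b with h0 | hpab
  · exact h0
  exfalso
  have hg : Ex m p .g2 a b := by simp only [Ex]; omega
  have hx : Ex m p .x a b := by simp only [Ex]; omega
  have hP : Ex m p .P a b := by simp only [Ex]; omega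
  have hbp : Ex m p .bp a b := by simp only [Ex]; omega
  have hrow := g2_all hp hs ha (on_all hp hs (by omega) hona a ha le_rfl) b hab hb
  have hon := on_all hp hs hb honb a ha hab.le
  have hl : later p a b = [(.x, a, b)] := by
    unfold later
    rw [if_neg (by omega), if_pos hpab]
  have hxrow : ¬ RowH m p srv (.x, a, b) := by
    intro hr
    apply hon
    rw [hl]
    intro N hN
    rw [List.mem_singleton] at hN
    rw [hN]; exact hr
  have hxP : srv (pos m (.x, a, b)) = pos m (.P, a, b) := by
    rcases srv_x hs hx with h1 | ⟨-, h1⟩ | ⟨h1, -⟩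
    · exact absurd h1 hxrow
    · exact h1
    · omega
  have hgbp : srv (pos m (.g2, a, b)) = pos m (.bp, a, b) := by
    obtain ⟨k', a', b', h', hq, hc⟩ := srv_spec hs hg rfl
    have ht : ty k' = .H := by
      unfold RowH at hrow
      rw [hq] at hrow
      exact ty_of_mem_sel h' hrow
    rcases srv_g2 hs hg hb with ⟨-, ⟨-, h1⟩ | ⟨h1, -⟩⟩ | h1
    · exact h1
    · omega
    · exfalso
      unfold ColV at h1
      rw [hq] at h1
      have := ty_of_mem_sel h' h1
      rw [ht] at this
      exact absurd this (by decide)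
  have hcross := hs.cross _ (pos_mem_sel hg rfl) _ (pos_mem_sel hx rfl)
    (by rw [hgbp]; exact pos_mem_sel hbp rfl) (by rw [hxP]; exact pos_mem_sel hP rfl)
    (by
      intro h hh h2
      rw [hgbp] at h2 ⊢
      obtain ⟨k', a', b', h', ht, rfl⟩ := mem_sel.mp hh
      obtain ⟨h3, h4⟩ := (snd_eq_iff h' hbp).mp h2
      have h5 := rowH_C (a := a) (b := b) hp hb h' ht (by rw [h3]; simp only [cY, dy])
        (by rw [h4]; simp only [eY, oy]; ring)
      rw [List.mem_singleton, if_pos hpab] at h5
      rw [h5])
    (by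
      intro v hv h2
      rw [hxP] at h2 ⊢
      obtain ⟨k', a', b', h', ht, rfl⟩ := mem_sel.mp hv
      obtain ⟨h3, h4⟩ := (fst_eq_iff h' hP).mp h2
      have h5 := colV_P (a := a) (b := b) ha h' ht (by rw [h3]; simp only [cX, dx])
        (by rw [h4]; simp only [eX, ox]; ring)
      rw [List.mem_singleton] at h5
      rw [h5])
  apply hcross
  rw [hgbp, hxP]
  refine ⟨Or.inr ⟨?_, ?_⟩, Or.inl ⟨?_, ?_⟩⟩
  · rw [fst_lt_iff hg hP]; simp only [cX, eX, dx, ox]; omega
  · rw [fst_lt_iff hP hbp]; simp only [cX, eX, dx, ox]; omega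
  · rw [snd_lt_iff hP hbp]; simp only [cY, eY, dy, oy]; omega
  · rw [snd_lt_iff hbp hx]; simp only [cY, eY, dy, oy]; omega


end Sat

end Pool.Agent.AreaTri
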