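import Pool.Agent.AreaTri.Sat.Pos

/-!
# The SAT layout is well-formed: nodes on a line, part 3
-/

namespace Pool.Agent.AreaTri

namespace Sat

variable {m : ℕ} {p : ℕ → ℕ → ℕ} {k k' : Kd} {a b a' b' : ℕ}

lemma rowT_aux (hv : ty k = .T) (h : Ex m p k a b) (h' : Ex m p k' a' b')
    (h1 : cY k' a' b' = cY k a b) (h2 : eY k' a' = eY k a) :
    (k' = k ∧ a' = a ∧ b' = b) ∨ ty k' = .R := by
  cases k <;> first | (exfalso; simp only [ty] at hv; exact absurd hv (by decide)) | skip
  all_goals
    cases k' <;> first | exact Or.inr rfl | skip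
  all_goals
    simp only [Ex, cY, eY, dy, oy] at h h' h1 h2
    first
      | (exfalso; omega)
      | (obtain rfl : a = a' := by omega
         obtain rfl : b = b' := by omega
         first | exact Or.inl ⟨rfl, rfl, rfl⟩ | (exfalso; omega))

lemma colT_aux (hv : ty k = .T) (h : Ex m p k a b) (h' : Ex m p k' a' b')
    (h1 : cX k' a' b' = cX k a b) (h2 : eX k' a' = eX k a) :
    (k' = k ∧ a' = a ∧ b' = b) ∨ ty k' = .R := by
  cases k <;> first | (exfalso; simp only [ty] at hv; exact absurd hv (by decide)) | skip
  all_goals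
    cases k' <;> first | exact Or.inr rfl | skip
  all_goals
    simp only [Ex, cX, eX, dx, ox] at h h' h1 h2
    first
      | (exfalso; omega)
      | (obtain rfl : a = a' := by omega
         obtain rfl : b = b' := by omega
         first | exact Or.inl ⟨rfl, rfl, rfl⟩ | (exfalso; omega))

end Sat

end Pool.Agent.AreaTri
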