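import Pool.Agent.AreaTri.Sat.WF1
import Pool.Agent.AreaTri.Sat.WF2
import Pool.Agent.AreaTri.Sat.WF3

/-!
# The SAT layout is well-formed
-/

namespace Pool.Agent.AreaTri

namespace Sat

variable {m : ℕ} {p : ℕ → ℕ → ℕ} {k k' : Kd} {a b a' b' : ℕ}

lemma dx_bd (k : Kd) : 0 ≤ dx k ∧ dx k ≤ 216 := by cases k <;> simp [dx]

lemma dy_bd (k : Kd) : -40 ≤ dy k ∧ dy k ≤ 320 := by cases k <;> simp [dy]

lemma disj {t t' : Ty} (h : t ≠ t') : Disjoint (sel m p t) (sel m p t') := by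
  rw [Finset.disjoint_left]
  intro q hq hq'
  obtain ⟨k, a, b, hE, ht, rfl⟩ := mem_sel.mp hq
  exact h (ht.symm.trans (ty_of_mem_sel hE hq'))

/-- A bijection from the red nodes to the blue nodes (only used for counting). -/
def prt (m : ℕ) (p : ℕ → ℕ → ℕ) : Kd × ℕ × ℕ → Kd × ℕ × ℕ
  | (.r1, a, b) => (.bh2, a, b)
  | (.m1, a, b) => (.d1, a, b)
  | (.x, a, b) => (.b0, a, b)
  | (.rh, a, b) => if p a b = 1 then (.P, a, b) else (.T, a, b)
  | (.g2, a, b) => if b ≤ 3 * m then (if p a b = 1 then (.bp, a, b) else (.bg, a, b)) else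
      if a % 3 = 1 then (.Db, 1, a) else if a % 3 = 2 then (.Dd, 1, a - 1) else (.Ts, a - 2, b)
  | (.ya, a, b) => (.pa, a, b)
  | (.y, a, b) => (.pb, a, b)
  | (.rd, a, b) => (.bd, a, b)
  | (.qa, a, b) => (.Da, a, b)
  | (.qc, a, b) => (.Dc, a, b)
  | (.N, a, b) => (.k1, a, b)
  | (.S, a, b) => (.k2, a, b)
  | (.Er, a, b) => (.dE, a, b)
  | N => N

/-- The inverse of `prt`. -/
def trp (m : ℕ) : Kd × ℕ × ℕ → Kd × ℕ × ℕ
  | (.bh2, a, b) => (.r1, a, b)
  | (.d1, a, b) => (.m1, a, b)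
  | (.b0, a, b) => (.x, a, b)
  | (.P, a, b) => (.rh, a, b)
  | (.T, a, b) => (.rh, a, b)
  | (.bp, a, b) => (.g2, a, b)
  | (.bg, a, b) => (.g2, a, b)
  | (.Db, _, b) => (.g2, b, 3 * m + 1)
  | (.Dd, _, b) => (.g2, b + 1, 3 * m + 1)
  | (.Ts, a, b) => (.g2, a + 2, b)
  | (.pa, a, b) => (.ya, a, b)
  | (.pb, a, b) => (.y, a, b)
  | (.bd, a, b) => (.rd, a, b)
  | (.Da, a, b) => (.qa, a, b)
  | (.Dc, a, b) => (.qc, a, b)
  | (.k1, a, b) => (.N, a, b)
  | (.k2, a, b) => (.S, a, b)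
  | (.dE, a, b) => (.Er, a, b)
  | N => N

lemma prt_spec (hp : ∀ a b, p a b = 0 ∨ p a b = 1) (h : Ex m p k a b) (ht : ty k = .R) :
    Ex m p (prt m p (k, a, b)).1 (prt m p (k, a, b)).2.1 (prt m p (k, a, b)).2.2 ∧
      ty (prt m p (k, a, b)).1 ≠ .R ∧ trp m (prt m p (k, a, b)) = (k, a, b) := by
  have hpab := hp a b
  cases k <;> first | (exfalso; simp only [ty] at ht; exact absurd ht (by decide)) | skip
  all_goals simp only [Ex] at h
  all_goals simp only [prt]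
  all_goals first
    | exact ⟨h, by decide, rfl⟩
    | skip
  · split_ifs with h1 h2 h3 h4
    · exact ⟨show 1 ≤ a ∧ a < b ∧ b ≤ 3 * m ∧ p a b = 1 by omega, by simp [ty], rfl⟩
    · exact ⟨show 1 ≤ a ∧ a < b ∧ b ≤ 3 * m ∧ p a b = 0 by omega, by simp [ty], rfl⟩
    · refine ⟨show 1 = 1 ∧ a % 3 = 1 ∧ a ≤ 3 * m by omega, by simp [ty], ?_⟩
      show (Kd.g2, a, 3 * m + 1) = (Kd.g2, a, b)
      rw [show b = 3 * m + 1 by omega]
    · refine ⟨show 1 = 1 ∧ (a - 1) % 3 = 1 ∧ a - 1 ≤ 3 * m by omega, by simp [ty], ?_⟩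
      show (Kd.g2, a - 1 + 1, 3 * m + 1) = (Kd.g2, a, b)
      rw [show b = 3 * m + 1 by omega, show a - 1 + 1 = a by omega]
    · refine ⟨show (a - 2) % 3 = 1 ∧ a - 2 ≤ 3 * m ∧ b = 3 * m + 1 by omega, by simp [ty], ?_⟩
      show (Kd.g2, a - 2 + 2, b) = (Kd.g2, a, b)
      rw [show a - 2 + 2 = a by omega]
  · split_ifs with h1
    · exact ⟨show 1 ≤ a ∧ a < b ∧ b ≤ 3 * m ∧ p a b = 1 by omega, by simp [ty], rfl⟩
    · exact ⟨show 1 ≤ a ∧ a < b ∧ b ≤ 3 * m ∧ p a b = 0 by omega, by simp [ty], rfl⟩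

lemma trp_spec (h : Ex m p k a b) (ht : ty k ≠ .R) :
    Ex m p (trp m (k, a, b)).1 (trp m (k, a, b)).2.1 (trp m (k, a, b)).2.2 ∧
      ty (trp m (k, a, b)).1 = .R ∧ prt m p (trp m (k, a, b)) = (k, a, b) := by
  cases k <;> first | (exfalso; exact ht rfl) | skip
  all_goals simp only [Ex] at h
  all_goals simp only [trp]
  all_goals first
    | exact ⟨h, rfl, rfl⟩
    | exact ⟨show 1 ≤ a ∧ a < b ∧ b ≤ 3 * m by omega, rfl, by
        simp only [prt]
        rw [if_pos h.2.2.2]⟩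
    | exact ⟨show 1 ≤ a ∧ a < b ∧ b ≤ 3 * m by omega, rfl, by
        simp only [prt]
        rw [if_neg (by omega)]⟩
    | exact ⟨show 1 ≤ a ∧ a ≤ 3 * m ∧ a < b ∧ b ≤ 3 * m + 1 by omega, rfl, by
        simp only [prt]
        rw [if_pos (by omega), if_pos h.2.2.2]⟩
    | exact ⟨show 1 ≤ a ∧ a ≤ 3 * m ∧ a < b ∧ b ≤ 3 * m + 1 by omega, rfl, by
        simp only [prt]
        rw [if_pos (by omega), if_neg (by omega)]⟩
    | exact ⟨show 1 ≤ b ∧ b ≤ 3 * m ∧ b < 3 * m + 1 ∧ 3 * m + 1 ≤ 3 * m + 1 by omega, rfl, by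
        simp only [prt]
        rw [if_neg (by omega), if_pos (by omega), h.1]⟩
    | exact ⟨show 1 ≤ b + 1 ∧ b + 1 ≤ 3 * m ∧ b + 1 < 3 * m + 1 ∧ 3 * m + 1 ≤ 3 * m + 1 by omega,
        rfl, by
        simp only [prt]
        rw [if_neg (by omega), if_neg (by omega), if_pos (by omega), h.1, Nat.add_sub_cancel]⟩
    | exact ⟨show 1 ≤ a + 2 ∧ a + 2 ≤ 3 * m ∧ a + 2 < b ∧ b ≤ 3 * m + 1 by omega,
        rfl, by
        simp only [prt]
        rw [if_neg (by omega), if_neg (by omega), if_neg (by omega), Nat.add_sub_cancel]⟩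

lemma sel_card (t : Ty) : (sel m p t).card = ((names m p).filter fun N => ty N.1 = t).card := by
  unfold sel
  apply Finset.card_image_of_injOn
  rintro ⟨k, a, b⟩ h ⟨k', a', b'⟩ h' hh
  rw [Finset.mem_coe, Finset.mem_filter, mem_names] at h h'
  obtain ⟨rfl, rfl, rfl⟩ := pos_inj h.1 h'.1 hh
  rfl

lemma card_eq (hp : ∀ a b, p a b = 0 ∨ p a b = 1) :
    (sel m p .R).card = (sel m p .H).card + (sel m p .V).card + (sel m p .T).card := by
  rw [sel_card, sel_card, sel_card, sel_card]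
  have h1 : ((names m p).filter fun N => ty N.1 = .R).card =
      ((names m p).filter fun N => ty N.1 ≠ .R).card := by
    refine Finset.card_nbij' (prt m p) (trp m) ?_ ?_ ?_ ?_
    · rintro ⟨k, a, b⟩ h
      rw [Finset.mem_coe, Finset.mem_filter, mem_names] at h ⊢
      have := prt_spec hp h.1 h.2
      exact ⟨this.1, this.2.1⟩
    · rintro ⟨k, a, b⟩ h
      rw [Finset.mem_coe, Finset.mem_filter, mem_names] at h ⊢
      have := trp_spec h.1 h.2
      exact ⟨this.1, this.2.1⟩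
    · rintro ⟨k, a, b⟩ h
      rw [Finset.mem_coe, Finset.mem_filter, mem_names] at h
      exact (prt_spec hp h.1 h.2).2.2
    · rintro ⟨k, a, b⟩ h
      rw [Finset.mem_coe, Finset.mem_filter, mem_names] at h
      exact (trp_spec h.1 h.2).2.2
  rw [h1, ← Finset.card_union_of_disjoint, ← Finset.card_union_of_disjoint]
  · congr 1
    ext N
    simp only [Finset.mem_filter, Finset.mem_union]
    rcases ht : ty N.1 with _ | _ | _ | _ <;> simp
  · rw [Finset.disjoint_left]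
    intro N
    simp only [Finset.mem_filter, Finset.mem_union]
    rcases ht : ty N.1 with _ | _ | _ | _ <;> simp
  · rw [Finset.disjoint_left]
    intro N
    simp only [Finset.mem_filter]
    rcases ht : ty N.1 with _ | _ | _ | _ <;> simp

theorem wf (hp : ∀ a b, p a b = 0 ∨ p a b = 1) : (lay m p).WF (bound m) where
  one_le := by
    unfold bound
    nlinarith [Int.natCast_nonneg m]
  bd := by
    intro q hq
    obtain ⟨k, a, b, h, rfl⟩ := mem_nodes.mp hq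
    have h1 := Ex_bd h
    have h2 := eX_nonneg h
    have h3 := eX_le h
    have h4 := eY_nonneg h
    have h5 := eY_le h
    have h6 := dx_bd k
    have h7 := dy_bd k
    have hcx0 : 0 ≤ cX k a b := by unfold cX; omega
    have hcx1 : cX k a b ≤ 208 * (3 * m + 4) := by unfold cX; omega
    have hcy0 : 0 ≤ cY k a b := by unfold cY; omega
    have hcy1 : cY k a b ≤ 132 * (3 * m + 4) := by unfold cY; omega
    have hK : KK m = 4 * (3 * m + 4) := rfl
    have hm : (0 : ℤ) ≤ m := Int.natCast_nonneg m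
    have h8 : 0 ≤ KK m * cX k a b := mul_nonneg (KK_pos m).le hcx0
    have h9 : 0 ≤ KK m * cY k a b := mul_nonneg (KK_pos m).le hcy0
    have h10 : KK m * cX k a b ≤ KK m * (208 * (3 * m + 4)) :=
      mul_le_mul_of_nonneg_left hcx1 (KK_pos m).le
    have h11 : KK m * cY k a b ≤ KK m * (132 * (3 * m + 4)) :=
      mul_le_mul_of_nonneg_left hcy1 (KK_pos m).le
    rw [hK] at h10 h11
    have h12 : bound m = 1600 * (3 * m + 4) ^ 2 := rfl
    unfold pos
    simp only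
    rw [hK] at h8 h9 ⊢
    rw [h12]
    refine ⟨by linarith, ?_, by linarith, ?_⟩
    · nlinarith
    · nlinarith
  dRH := disj (by decide)
  dRV := disj (by decide)
  dRT := disj (by decide)
  dHV := disj (by decide)
  dHT := disj (by decide)
  dVT := disj (by decide)
  rowV := by
    intro v hv q hq hqv
    obtain ⟨k, a, b, h, ht, rfl⟩ := mem_sel.mp hv
    obtain ⟨k', a', b', h', rfl⟩ := mem_nodes.mp hq
    obtain ⟨h1, h2⟩ := (snd_eq_iff h' h).mp hqv
    obtain ⟨rfl, rfl, rfl⟩ := rowV_aux ht h h' h1 h2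
    rfl
  colH := by
    intro v hv q hq hqv
    obtain ⟨k, a, b, h, ht, rfl⟩ := mem_sel.mp hv
    obtain ⟨k', a', b', h', rfl⟩ := mem_nodes.mp hq
    obtain ⟨h1, h2⟩ := (fst_eq_iff h' h).mp hqv
    obtain ⟨rfl, rfl, rfl⟩ := colH_aux ht h h' h1 h2
    rfl
  rowT := by
    intro v hv q hq hqv
    obtain ⟨k, a, b, h, ht, rfl⟩ := mem_sel.mp hv
    obtain ⟨k', a', b', h', rfl⟩ := mem_nodes.mp hq
    obtain ⟨h1, h2⟩ := (snd_eq_iff h' h).mp hqv
    rcases rowT_aux ht h h' h1 h2 with ⟨rfl, rfl, rfl⟩ | h3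
    · exact Or.inl rfl
    · exact Or.inr (pos_mem_sel h' h3)
  colT := by
    intro v hv q hq hqv
    obtain ⟨k, a, b, h, ht, rfl⟩ := mem_sel.mp hv
    obtain ⟨k', a', b', h', rfl⟩ := mem_nodes.mp hq
    obtain ⟨h1, h2⟩ := (fst_eq_iff h' h).mp hqv
    rcases colT_aux ht h h' h1 h2 with ⟨rfl, rfl, rfl⟩ | h3
    · exact Or.inl rfl
    · exact Or.inr (pos_mem_sel h' h3)
  card := card_eq hp

end Sat

theorem satLayout_wf (m : ℕ) (plain : ℕ → ℕ → Bool) : (satLayout m plain).WF (satBound m) :=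
  Sat.wf fun a b => by cases plain a b <;> simp

end Pool.Agent.AreaTri
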